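import Pool.Agent.H99.FI.Windows

/-!
# FI, job M1: balls in trees
-/

set_option autoImplicit false

namespace FI

open Finset Function
open scoped Classical

variable {V : Type*} {d : ℕ} {G : SimpleGraph V}

/-- if the edge `v w` points away from `o` and towards `r`, then `w` is between `o` and `r` -/
theorem dist_through (hG : G.IsTree) {o v w : V} (hadj : G.Adj v w)
    (h1 : G.dist o w = G.dist o v + 1) (n : ℕ) : ∀ r : V, G.dist w r = n →
    G.dist r v = G.dist r w + 1 → G.dist o r = G.dist o w + n := by
  induction n using Nat.strong_induction_on with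
  | _ n ih =>
    intro r hn h2
    -- auxiliary: one step closer to `w`
    have aux : ∀ r u : V, G.Adj r u → G.dist w r = G.dist w u + 1 →
        G.dist r v = G.dist r w + 1 → G.dist u v = G.dist u w + 1 := by
      intro r u hru hwu hrv
      have e1 : G.dist r w = G.dist w r := SimpleGraph.dist_comm
      have e2 : G.dist u w = G.dist w u := SimpleGraph.dist_comm
      have e3 : G.dist v r = G.dist r v := SimpleGraph.dist_comm
      have e4 : G.dist v u = G.dist u v := SimpleGraph.dist_comm
      rcases dist_adj hG v hru with h | h
      · rcases dist_adj hG u hadj with h' | h'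
        · exact h'
        · omega
      · rcases dist_adj hG u hadj with h' | h'
        · exact h'
        · omega
    by_cases hrw : r = w
    · subst hrw
      rw [SimpleGraph.dist_self] at hn
      omega
    · obtain ⟨u, hru, hu⟩ := exists_closer hG w hrw
      have hu2 := aux r u hru hu h2
      have hn1 : G.dist w u < n := by omega
      have i1 := ih _ hn1 u rfl hu2
      rcases dist_adj hG o hru with h | h
      · omega
      · exfalso
        by_cases huw : u = w
        · subst huw
          have : r = v := closer_unique hG o hru.symm hadj.symm h h1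
          subst this
          rw [SimpleGraph.dist_self] at h2
          omega
        · obtain ⟨u', huu, hu'⟩ := exists_closer hG w huw
          have hu3 := aux u u' huu hu' hu2
          have i2 := ih _ (by omega : G.dist w u' < n) u' rfl hu3
          have : r = u' := closer_unique hG o hru.symm huu h (by omega)
          subst this
          omega

section ball

variable (T : PT G d)

include T in
theorem exists_ball (hG : G.IsTree) (o : V) (r : ℕ) :
    ∃ A : Finset V, (∀ v, G.dist o v ≤ r → v ∈ A) ∧ A.card ≤ (d + 1) ^ r := by
  induction r with
  | zero =>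
    refine ⟨{o}, fun v hv => ?_, by simp⟩
    have h0 : G.dist o v = 0 := by omega
    rw [hG.connected.dist_eq_zero_iff] at h0
    simp [h0]
  | succ r ih =>
    obtain ⟨A, hA, hc⟩ := ih
    refine ⟨A ∪ A.biUnion fun w => univ.image fun i => (T.N0 (w, i)).1, fun v hv => ?_, ?_⟩
    · rw [Finset.mem_union]
      by_cases h : G.dist o v ≤ r
      · exact Or.inl (hA v h)
      · right
        have hvo : v ≠ o := by
          rintro rfl
          rw [SimpleGraph.dist_self] at h
          omega
        obtain ⟨w, hvw, hd⟩ := exists_closer hG o hvo
        obtain ⟨i, hi⟩ := T.surj w v hvw.symm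
        rw [Finset.mem_biUnion]
        refine ⟨w, hA w (by omega), ?_⟩
        rw [Finset.mem_image]
        exact ⟨i, Finset.mem_univ _, hi⟩
    · refine (Finset.card_union_le _ _).trans ?_
      have h1 : (A.biUnion fun w => univ.image fun i => (T.N0 (w, i)).1).card ≤ A.card * d := by
        refine Finset.card_biUnion_le_card_mul _ _ _ fun w _ => ?_
        refine Finset.card_image_le.trans ?_
        simp
      calc A.card + (A.biUnion fun w => univ.image fun i => (T.N0 (w, i)).1).card
          ≤ A.card + A.card * d := by omega
        _ = A.card * (d + 1) := by ring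
        _ ≤ (d + 1) ^ r * (d + 1) := Nat.mul_le_mul_right _ hc
        _ = (d + 1) ^ (r + 1) := (pow_succ _ _).symm

include T in
theorem mem_bl (hG : G.IsTree) {o v : V} {r : ℕ} : v ∈ bl G o r ↔ G.dist o v ≤ r := by
  obtain ⟨A, hA, _⟩ := exists_ball T hG o r
  have hf : {v | G.dist o v ≤ r}.Finite := A.finite_toSet.subset fun v hv => hA v hv
  unfold bl
  rw [dif_pos hf]
  simp

include T in
theorem card_bl (hG : G.IsTree) (o : V) (r : ℕ) : (bl G o r).card ≤ (d + 1) ^ r := by
  obtain ⟨A, hA, hc⟩ := exists_ball T hG o r
  refine (Finset.card_le_card fun v hv => ?_).trans hc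
  exact hA v ((mem_bl T hG).mp hv)

include T in
theorem clo_bl (hG : G.IsTree) (o : V) (r : ℕ) : ∀ r' ∈ bl G o r, Clo G r' (bl G o r) := by
  intro r' hr'
  refine ⟨hr', fun v hv w hvw hd => ?_⟩
  rw [mem_bl T hG] at hr' hv ⊢
  rcases dist_adj hG o hvw with h | h
  · omega
  · have := dist_through hG hvw h _ r' rfl hd
    omega

end ball

end FI
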