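import Mathlib

/-!
# FI, job M1: choice of the sequences
-/

set_option autoImplicit false

namespace FI

open Finset

theorem exists_scale (e : ℝ) (h0 : 0 < e) (h1 : e ≤ 1) :
    ∃ s : ℕ, 1 / 2 ^ (8 * s + 8) ≤ e ∧ e ≤ 1 / 2 ^ (8 * s) := by
  obtain ⟨n, hn1, hn2⟩ := exists_nat_pow_near (x := 1 / e) (y := (2 : ℝ) ^ 8)
    (by rw [le_div_iff₀ h0]; linarith) (by norm_num)
  refine ⟨n, ?_, ?_⟩
  · rw [div_le_iff₀ (by positivity)]
    rw [← pow_mul, div_lt_iff₀ h0] at hn2
    have : 8 * (n + 1) = 8 * n + 8 := by ring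
    rw [this] at hn2
    linarith
  · rw [le_div_iff₀ (by positivity)]
    rw [← pow_mul, le_div_iff₀ h0] at hn1
    linarith

theorem seq_choice (p₀ : ℕ → ℝ) (hp₀ : ∀ s, 0 < p₀ s) (C : ℝ) (hC : 0 ≤ C) :
    ∃ (s : ℕ → ℕ) (p ε : ℕ → ℝ), ε 0 = 1 ∧ (∀ k, ε (k + 1) = ε k * (1 - p k)) ∧
      (∀ k, 0 < p k ∧ p k ≤ 1 / 2 ∧ p k ≤ p₀ (s k)) ∧
      (∀ k, 1 / 2 ^ (8 * s k + 8) ≤ ε k ∧ ε k ≤ 1 / 2 ^ (8 * s k)) ∧
      Filter.Tendsto ε Filter.atTop (nhds 0) ∧
      Summable (fun k => p k * (C / 2 ^ (s k))) := by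
  classical
  choose! S hS using fun (e : ℝ) (h : 0 < e ∧ e ≤ 1) => exists_scale e h.1 h.2
  let pp : ℝ → ℝ := fun e => min (1 / 2) (p₀ (S e))
  have hpp0 : ∀ e, 0 < pp e := fun e => lt_min (by norm_num) (hp₀ _)
  have hpp1 : ∀ e, pp e ≤ 1 / 2 := fun e => min_le_left _ _
  let ε : ℕ → ℝ := fun k => Nat.rec 1 (fun _ e => e * (1 - pp e)) k
  have hε0 : ε 0 = 1 := rfl
  have hε1 : ∀ k, ε (k + 1) = ε k * (1 - pp (ε k)) := fun k => rfl
  have hεp : ∀ k, 0 < ε k := by
    intro k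
    induction k with
    | zero => rw [hε0]; norm_num
    | succ k ih => rw [hε1]; exact mul_pos ih (by linarith [hpp1 (ε k)])
  have hεle : ∀ k, ε (k + 1) ≤ ε k := by
    intro k
    rw [hε1]
    nlinarith [hεp k, hpp0 (ε k)]
  have hε11 : ∀ k, ε k ≤ 1 := by
    intro k
    induction k with
    | zero => rw [hε0]
    | succ k ih => exact (hεle k).trans ih
  have hSk : ∀ k, 1 / 2 ^ (8 * S (ε k) + 8) ≤ ε k ∧ ε k ≤ 1 / 2 ^ (8 * S (ε k)) :=
    fun k => hS (ε k) ⟨hεp k, hε11 k⟩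
  refine ⟨fun k => S (ε k), fun k => pp (ε k), ε, hε0, hε1,
    fun k => ⟨hpp0 _, hpp1 _, min_le_right _ _⟩, hSk, ?_, ?_⟩
  · -- convergence
    have hanti : Antitone ε := antitone_nat_of_succ_le hεle
    have hbdd : BddBelow (Set.range ε) := ⟨0, by rintro _ ⟨k, rfl⟩; exact (hεp k).le⟩
    have hlim := tendsto_atTop_ciInf hanti hbdd
    set l := ⨅ k, ε k with hl
    have hl0 : 0 ≤ l := le_ciInf fun k => (hεp k).le
    rcases hl0.eq_or_lt with h | h
    · rw [← h] at hlim; exact hlim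
    · exfalso
      have hle : ∀ k, l ≤ ε k := fun k => ciInf_le hbdd k
      -- bounded scale
      obtain ⟨n, hn⟩ := pow_unbounded_of_one_lt (1 / l) (one_lt_two : (1 : ℝ) < 2)
      have hSb : ∀ k, S (ε k) ≤ n := by
        intro k
        by_contra hc
        push Not at hc
        have h1 : l ≤ 1 / 2 ^ (8 * S (ε k)) := (hle k).trans (hSk k).2
        have h2 : (2 : ℝ) ^ n ≤ 2 ^ (8 * S (ε k)) := pow_le_pow_right₀ (by norm_num) (by omega)
        rw [div_lt_iff₀ h] at hn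
        rw [le_div_iff₀ (by positivity)] at h1
        nlinarith
      obtain ⟨π, hπ0, hπ⟩ : ∃ π : ℝ, 0 < π ∧ ∀ s ≤ n, π ≤ p₀ s := by
        obtain ⟨s, hs, hmin⟩ := Finset.exists_min_image (range (n + 1)) p₀ ⟨0, by simp⟩
        exact ⟨p₀ s, hp₀ s, fun s' hs' => hmin s' (by simp; omega)⟩
      have hppπ : ∀ k, min (1 / 2) π ≤ pp (ε k) := fun k =>
        min_le_min le_rfl (hπ _ (hSb k))
      set π' := min (1 / 2) π with hπ'
      have hπ'0 : 0 < π' := lt_min (by norm_num) hπ0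
      have hπ'1 : π' ≤ 1 / 2 := min_le_left _ _
      have hdec : ∀ k, ε k ≤ (1 - π') ^ k := by
        intro k
        induction k with
        | zero => rw [hε0]; simp
        | succ k ih =>
          rw [hε1, pow_succ]
          have h1 : 1 - pp (ε k) ≤ 1 - π' := by linarith [hppπ k]
          have h2 : 0 ≤ 1 - pp (ε k) := by linarith [hpp1 (ε k)]
          exact mul_le_mul ih h1 h2 (by apply pow_nonneg; linarith)
      obtain ⟨k, hk⟩ := exists_pow_lt_of_lt_one h (by linarith : 1 - π' < 1)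
      exact absurd (hle k) (by have := hdec k; push Not; linarith)
  · -- summability
    let y : ℕ → ℝ := fun k => Real.sqrt (Real.sqrt (Real.sqrt (ε k)))
    have hy0 : ∀ k, 0 < y k := fun k =>
      Real.sqrt_pos.mpr (Real.sqrt_pos.mpr (Real.sqrt_pos.mpr (hεp k)))
    have hy8 : ∀ k, y k ^ 8 = ε k := by
      intro k
      have e1 : y k ^ 2 = Real.sqrt (Real.sqrt (ε k)) := Real.sq_sqrt (Real.sqrt_nonneg _)
      have e2 : Real.sqrt (Real.sqrt (ε k)) ^ 2 = Real.sqrt (ε k) :=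
        Real.sq_sqrt (Real.sqrt_nonneg _)
      have e3 : Real.sqrt (ε k) ^ 2 = ε k := Real.sq_sqrt (hεp k).le
      calc y k ^ 8 = ((y k ^ 2) ^ 2) ^ 2 := by ring
        _ = ε k := by rw [e1, e2, e3]
    have hscale : ∀ k, 1 / 2 ^ (S (ε k)) ≤ 2 * y k := by
      intro k
      have h1 : (1 / 2 ^ (S (ε k) + 1) : ℝ) ^ 8 ≤ y k ^ 8 := by
        rw [hy8, one_div_pow, ← pow_mul]
        have : (S (ε k) + 1) * 8 = 8 * S (ε k) + 8 := by ring
        rw [this]
        exact (hSk k).1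
      have h2 : (1 / 2 ^ (S (ε k) + 1) : ℝ) ≤ y k :=
        le_of_pow_le_pow_left₀ (by norm_num) (hy0 k).le h1
      have h3 : (1 / 2 ^ (S (ε k)) : ℝ) = 2 * (1 / 2 ^ (S (ε k) + 1)) := by
        rw [pow_succ]; field_simp
      rw [h3]
      linarith
    have hbern : ∀ k, pp (ε k) * y k ≤ 8 * (y k - y (k + 1)) := by
      intro k
      set r := y (k + 1) / y k with hr
      have hr0 : 0 < r := by rw [hr]; exact div_pos (hy0 (k + 1)) (hy0 k)
      have hr8 : r ^ 8 = 1 - pp (ε k) := by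
        rw [hr, div_pow, hy8 (k + 1), hy8 k, hε1]
        have := (hεp k).ne'
        field_simp
      have hb := one_add_mul_le_pow (a := r - 1) (by linarith) 8
      have e1 : 1 + (r - 1) = r := by ring
      rw [e1, hr8] at hb
      push_cast at hb
      have h3 : pp (ε k) ≤ 8 * (1 - r) := by linarith
      have h4 : r * y k = y (k + 1) := by rw [hr]; exact div_mul_cancel₀ _ (hy0 k).ne'
      nlinarith [hy0 k]
    have hterm : ∀ k, pp (ε k) * (C / 2 ^ (S (ε k))) ≤ 16 * C * (y k - y (k + 1)) := by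
      intro k
      have h1 : C / 2 ^ (S (ε k)) ≤ C * (2 * y k) := by
        rw [div_eq_mul_one_div]
        exact mul_le_mul_of_nonneg_left (hscale k) hC
      calc pp (ε k) * (C / 2 ^ (S (ε k))) ≤ pp (ε k) * (C * (2 * y k)) :=
            mul_le_mul_of_nonneg_left h1 (hpp0 _).le
        _ = 2 * C * (pp (ε k) * y k) := by ring
        _ ≤ 2 * C * (8 * (y k - y (k + 1))) :=
            mul_le_mul_of_nonneg_left (hbern k) (by positivity)
        _ = _ := by ring
    apply summable_of_sum_range_le (c := 16 * C * y 0)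
    · intro k
      have := (hpp0 (ε k)).le
      positivity
    · intro n
      have : ∑ k ∈ range n, pp (ε k) * (C / 2 ^ (S (ε k))) ≤ 16 * C * (y 0 - y n) := by
        induction n with
        | zero => simp
        | succ n ih =>
          rw [Finset.sum_range_succ]
          have := hterm n
          linarith
      refine this.trans ?_
      have := (hy0 n).le
      nlinarith

end FI
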