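import Pool.Agent.H99.FI.Noise.Law
import Pool.Agent.H99.FI.Noise.Balls
import Pool.Agent.H99.FI.Noise.Seq

/-!
# FI, job M1: stability and the output

The inputs (law of one window, locality of one window, cost of one window, consistency of the
kernel) are hypotheses `LawWindow`, `StabWindow`, `CostWindow`, `KernCons`.
-/

set_option autoImplicit false

namespace FI

open Finset Function MeasureTheory MeasureTheory.Measure
open scoped Classical

/-- the exact law after one window -/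
def LawWindow (d : ℕ) [NeZero d] : Prop :=
  ∀ (V : Type) (G : SimpleGraph V) (_ : G.IsTree)
    (T : PT G d) (P : Par) (_ : 0 < P.K) (p ε : ℝ) (B : Finset V)
    (L : List (Dart V d)) (_ : L.Nodup) (_ : ∀ a, a ∈ L ↔ a ∈ T.EB B) (F : Cfg V d → ℝ)
    (ω : Cfg V d),
    T.EE (fun _ => ε) B ∅ (fun ω => VP p P.K (T.hs P B (fun _ => true)) (T.hs P B (fun _ => true))
      L (fun ω _ => F ω) ω ω) ω = T.EE (fun _ => ε * (1 - p)) B ∅ F ω

/-- the windows are local -/
def StabWindow (d : ℕ) [NeZero d] : Prop :=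
  ∀ s : ℕ, ∃ p₀ : ℝ, 0 < p₀ ∧
    ∀ p : ℝ, 0 ≤ p → p ≤ p₀ → ∀ δ : ℝ, 0 < δ → ∃ ρ : ℕ,
      ∀ (V : Type) (G : SimpleGraph V) (_ : G.IsTree) (T : OT G d) (ε : ℝ)
        (_ : 1 / 2 ^ (8 * s + 8) ≤ ε) (_ : ε ≤ 1 / 2 ^ (8 * s)) (B' B : Finset V) (_ : B' ⊆ B)
        (_ : ∀ r ∈ B', Clo G r B') (_ : ∀ r ∈ B, Clo G r B) (o : V)
        (_ : ∀ w, G.dist o w ≤ ρ → w ∈ B'),
        ∃ X X' : Cfg V d → ℝ, T.toPT.DepOn B X ∧ T.toPT.DepOn B' X' ∧
          (∀ ω, 0 ≤ X ω) ∧ (∀ ω, 0 ≤ X' ω) ∧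
          (∀ ω, T.toPT.EE (fun _ => ε) B ∅ X ω ≤ δ) ∧
          (∀ ω, T.toPT.EE (fun _ => ε) B' ∅ X' ω ≤ δ) ∧
          ∀ ω ω' : Cfg V d, Cons (T.toPT.nof B ω.2) ω.1 → Cons (T.toPT.nof B' ω'.2) ω'.1 →
            (∀ v, G.dist o v ≤ ρ → ω.1 v = ω'.1 v) →
            (∀ e : Dart V d, G.dist o e.1 ≤ ρ → G.dist o (T.N0 e).1 ≤ ρ → ω.2 e = ω'.2 e) →
            VP p (parS s).K (T.toPT.hs (parS s) B (fun _ => true))
              (T.toPT.hs (parS s) B' (fun e => decide (e ∈ T.toPT.EB B'))) (T.lst B)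
              (fun ω ω' => if ω.1 o = ω'.1 o then 0 else 1) ω ω' ≤ X ω + X' ω'

/-- the cost of one window -/
def CostWindow (d : ℕ) [NeZero d] : Prop :=
  ∃ (C : ℝ) (R : ℕ → ℕ), 0 ≤ C ∧
    ∀ (s : ℕ) (p : ℝ) (_ : 0 ≤ p) (_ : p ≤ 1 / 2)
      (V : Type) (G : SimpleGraph V) (_ : G.IsTree) (T : OT G d) (ε : ℝ)
      (_ : 1 / 2 ^ (8 * s + 8) ≤ ε) (_ : ε ≤ 1 / 2 ^ (8 * s)) (B : Finset V)
      (_ : ∀ r ∈ B, Clo G r B) (v : V) (_ : ∀ w, G.dist v w ≤ R s → w ∈ B) (ω : Cfg V d),
      T.toPT.EE (fun _ => ε) B ∅ (fun ω => VP p (parS s).K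
        (T.toPT.hs (parS s) B (fun _ => true)) (fun _ _ ω => ω) (T.lst B)
        (fun ω ω' => if ω.1 v = ω'.1 v then 0 else 1) ω ω) ω ≤ p * (C / 2 ^ s)

/-- consistency of the kernel -/
def KernCons (d : ℕ) [NeZero d] : Prop :=
  ∀ (V : Type) (P : Par) (N : Adj V d)
    (a b' : Dart V d) (_ : ∀ a b, N a = some b → N b = some a)
    (_ : Forest (addE N a b')) (_ : N a = none) (_ : N b' = none) (_ : a ≠ b')
    (x : St V d) (_ : Cons N x) (ξ : ℕ), Cons (addE N a b') (kern P N x ξ a b')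

variable {V : Type} {G : SimpleGraph V} {d : ℕ} [NeZero d]

theorem cons_cfg (hk : KernCons d) (hG : G.IsTree) (hd : 3 ≤ d) {T : OT G d} {P : ℕ → Par}
    {B : Finset V} (η : V → Nz d) (k : ℕ) :
    Cons (T.toPT.nof B (T.cfg P B η k).2) (T.cfg P B η k).1 := by
  induction k with
  | zero =>
    intro a b h
    rw [PT.nof_some] at h
    have := h.2.2.1
    simp [OT.cfg] at this
  | succ k ih =>
    rw [cfg_succ]
    exact cons_run hG hd (fun P N a b' h1 h2 h3 h4 h5 x h6 ξ => hk V P N a b' h1 h2 h3 h4 h5 x h6 ξ)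
      (P k) _ _ _ (fun e he => mem_lst_EB he) _ ih

section

variable {P : ℕ → Par} {p : ℕ → ℝ}
variable [hw : ∀ k, IsProbabilityMeasure (winLaw (p k) (P k).K)]

omit [NeZero d] in
/-- measure of an event as an integral -/
theorem real_eq_integral {S : Finset V} {k : ℕ} {q : (V → Nz d) → Prop} (hq : Cyl S k q)
    (Z : (V → Nz d) → ℝ) (hZ0 : ∀ η, q η → Z η = 0) (hZ1 : ∀ η, ¬ q η → Z η = 1) :
    (nzP V d p P).real {η | ¬ q η} = ∫ η, Z η ∂(nzP V d p P) := by
  have hm : MeasurableSet {η | ¬ q η} := by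
    have := (hq.comp (fun r : Prop => ¬ r)).measurable
    exact measurableSet_setOfPred.mpr this
  have h1 : Z = Set.indicator {η | ¬ q η} 1 := by
    funext η
    by_cases h : q η
    · rw [hZ0 η h]; simp [h]
    · rw [hZ1 η h]; simp [h]
  rw [h1, integral_indicator_one hm]

/-- the probability that an edge is still cut -/
theorem cut_prob (hp : ∀ k, 0 ≤ p k ∧ p k ≤ 1) (hK : ∀ k, 0 < (P k).K) (ε : ℕ → ℝ)
    (hε0 : ε 0 = 1) (hε : ∀ k, ε (k + 1) = ε k * (1 - p k)) (e : Dart V d) (k : ℕ) :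
    (nzP V d p P).real {η | ∀ j < k, (zt j η e).1 = false} = ε k := by
  have hcyl : ∀ k, Cyl {e.1} k (fun η : V → Nz d => ¬ ∀ j < k, (zt j η e).1 = false) := by
    intro k η η' h
    have : ∀ j < k, (zt j η e) = zt j η' e := by
      intro j hj
      unfold zt
      rw [(h e.1 (by simp)).2 j hj]
    apply propext
    constructor
    · intro h1 h2
      exact h1 fun j hj => by rw [this j hj]; exact h2 j hj
    · intro h1 h2
      exact h1 fun j hj => by rw [← this j hj]; exact h2 j hj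
  let F : Cfg V d → Cfg V d → ℝ := fun ω _ => if ω.2 e = true then 0 else 1
  let A : ℕ → (V → Nz d) → Cfg V d := fun k η =>
    (fun _ => 1, fun _ => decide (¬ ∀ j < k, (zt j η e).1 = false))
  have hA : ∀ k, Cyl {e.1} k (A k) := by
    intro k η η' h
    have := hcyl k η η' h
    simp only [A]
    refine Prod.ext rfl (funext fun _ => ?_)
    exact decide_eq_decide.mpr (iff_of_eq this)
  have h1 : ∀ k, (nzP V d p P).real {η | ∀ j < k, (zt j η e).1 = false} =
      ∫ η, F (A k η) (A k η) ∂(nzP V d p P) := by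
    intro k
    have := real_eq_integral (p := p) (P := P) (hcyl k) (fun η => F (A k η) (A k η))
      (fun η h => by simp only [F, A]; rw [if_pos (by simpa using h)])
      (fun η h => by simp only [F, A]; rw [if_neg (by simpa using h)])
    simp only [not_not] at this
    exact this
  rw [h1]
  induction k with
  | zero =>
    simp [F, A, hε0]
  | succ k ih =>
    let R : Dart V d → ℕ → Cfg V d → Cfg V d := fun _ _ ω => (ω.1, fun _ => true)
    have hb := bridge (p := p) (P := P) (d := d) hp hK k R R F (M := 1) (fun ω ω' => by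
      simp only [F]; split_ifs <;> simp) {e.1} [e] (by simp) (by simp) (A k) (A k) (hA k) (hA k)
    have h2 : ∀ η : V → Nz d, runL R (zt k η) [e] (A k η) = A (k + 1) η := by
      intro η
      rw [runL_cons]
      simp only [runL, stp, R, A]
      by_cases hz : (zt k η e).1 = true
      · rw [if_pos hz]
        refine Prod.ext rfl (funext fun _ => ?_)
        simp only
        rw [eq_comm, decide_eq_true_eq]
        intro h
        have := h k (Nat.lt_succ_self k)
        rw [hz] at this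
        cases this
      · rw [if_neg hz]
        refine Prod.ext rfl (funext fun _ => ?_)
        simp only
        rw [decide_eq_decide, not_iff_not]
        constructor
        · intro h j hj
          rcases Nat.lt_succ_iff_lt_or_eq.mp hj with h' | h'
          · exact h j h'
          · subst h'; simpa using hz
        · intro h j hj
          exact h j (by omega)
    simp only [h2] at hb
    rw [hb, hε, ← ih]
    simp only [VP]
    have h3 : ∀ η : V → Nz d, (1 - p k) * F (A k η) (A k η) + p k * (1 / ((P k).K : ℝ) *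
        ∑ ξ ∈ range (P k).K, F (R e ξ (A k η)) (R e ξ (A k η))) =
        F (A k η) (A k η) * (1 - p k) := by
      intro η
      have : ∀ ξ, F (R e ξ (A k η)) (R e ξ (A k η)) = 0 := fun ξ => by simp [F, R]
      simp only [this, Finset.sum_const_zero, mul_zero, add_zero]
      ring
    simp only [h3]
    rw [integral_mul_const]

end

section stab

variable {s : ℕ → ℕ} {p : ℕ → ℝ}
variable [hw : ∀ k, IsProbabilityMeasure (winLaw (p k) (parS (s k)).K)]

omit hw in
theorem parS_pos (s : ℕ) : 0 < (parS s).K := by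
  unfold parS; positivity

/-- two configurations at `o` coincide -/
def same (T : OT G d) (P : ℕ → Par) (B B' : Finset V) (o : V) (k : ℕ) (η : V → Nz d) : Prop :=
  (T.cfg P B η k).1 o = (T.cfg P B' η k).1 o

theorem same_cyl {T : OT G d} {P : ℕ → Par} {B B' : Finset V} {o : V} (ho : o ∈ B)
    (ho' : o ∈ B') (k : ℕ) : Cyl (B ∪ B') k (same T P B B' o k) := by
  intro η η' h
  unfold same
  have h1 := (cfg_local (T := T) (P := P) (B := B) k
    (fun v hv => h v (Finset.mem_union_left _ hv))).1 o ho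
  have h2 := (cfg_local (T := T) (P := P) (B := B') k
    (fun v hv => h v (Finset.mem_union_right _ hv))).1 o ho'
  rw [h1, h2]

theorem same_meas {T : OT G d} {P : ℕ → Par} {B B' : Finset V} {o : V} (ho : o ∈ B)
    (ho' : o ∈ B') (k : ℕ) : MeasurableSet {η : V → Nz d | ¬ same T P B B' o k η} :=
  measurableSet_setOfPred.mpr ((same_cyl ho ho' k).comp (fun r : Prop => ¬ r)).measurable

/-- stability at time `k` -/
def StabAt (d : ℕ) [NeZero d] (s : ℕ → ℕ) (p : ℕ → ℝ) (k : ℕ) : Prop :=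
  ∀ δ : ℝ, 0 < δ → ∃ ρ : ℕ, ∀ (V : Type) (G : SimpleGraph V) (_ : G.IsTree) (T : OT G d)
    (B B' : Finset V), (∀ r ∈ B, Clo G r B) → (∀ r ∈ B', Clo G r B') → ∀ o : V,
    (∀ w, G.dist o w ≤ ρ → w ∈ B) → (∀ w, G.dist o w ≤ ρ → w ∈ B') →
    (nzP V d p (fun k => parS (s k))).real
      {η | ¬ same T (fun k => parS (s k)) B B' o k η} ≤ δ

theorem stab_step (hd : 3 ≤ d) (hlaw : LawWindow d) (hkern : KernCons d)
    (ε : ℕ → ℝ) (hp : ∀ k, 0 ≤ p k ∧ p k ≤ 1)
    (hε0 : ε 0 = 1) (hε : ∀ k, ε (k + 1) = ε k * (1 - p k))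
    (hs : ∀ k, 1 / 2 ^ (8 * s k + 8) ≤ ε k ∧ ε k ≤ 1 / 2 ^ (8 * s k)) (k : ℕ)
    (hstab : ∀ δ : ℝ, 0 < δ → ∃ ρ : ℕ,
      ∀ (V : Type) (G : SimpleGraph V) (_ : G.IsTree) (T : OT G d) (ε : ℝ)
        (_ : 1 / 2 ^ (8 * s k + 8) ≤ ε) (_ : ε ≤ 1 / 2 ^ (8 * s k)) (B' B : Finset V)
        (_ : B' ⊆ B) (_ : ∀ r ∈ B', Clo G r B') (_ : ∀ r ∈ B, Clo G r B) (o : V)
        (_ : ∀ w, G.dist o w ≤ ρ → w ∈ B'),
        ∃ X X' : Cfg V d → ℝ, T.toPT.DepOn B X ∧ T.toPT.DepOn B' X' ∧
          (∀ ω, 0 ≤ X ω) ∧ (∀ ω, 0 ≤ X' ω) ∧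
          (∀ ω, T.toPT.EE (fun _ => ε) B ∅ X ω ≤ δ) ∧
          (∀ ω, T.toPT.EE (fun _ => ε) B' ∅ X' ω ≤ δ) ∧
          ∀ ω ω' : Cfg V d, Cons (T.toPT.nof B ω.2) ω.1 → Cons (T.toPT.nof B' ω'.2) ω'.1 →
            (∀ v, G.dist o v ≤ ρ → ω.1 v = ω'.1 v) →
            (∀ e : Dart V d, G.dist o e.1 ≤ ρ → G.dist o (T.N0 e).1 ≤ ρ → ω.2 e = ω'.2 e) →
            VP (p k) (parS (s k)).K (T.toPT.hs (parS (s k)) B (fun _ => true))
              (T.toPT.hs (parS (s k)) B' (fun e => decide (e ∈ T.toPT.EB B'))) (T.lst B)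
              (fun ω ω' => if ω.1 o = ω'.1 o then 0 else 1) ω ω' ≤ X ω + X' ω')
    (ih : StabAt d s p k) : StabAt d s p (k + 1) := by
  intro δ hδ
  obtain ⟨ρ₁, hρ₁⟩ := hstab (δ / 8) (by linarith)
  obtain ⟨ρ', hρ'⟩ := ih (δ / (8 * ((d + 1) ^ ρ₁ : ℕ))) (by positivity)
  refine ⟨ρ₁ + ρ', ?_⟩
  set P : ℕ → Par := fun k => parS (s k) with hP
  have hK : ∀ k, 0 < (P k).K := fun k => parS_pos _
  -- one-sided statement
  have one : ∀ (V : Type) (G : SimpleGraph V) (_ : G.IsTree) (T : OT G d)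
      (B B' : Finset V), B' ⊆ B → (∀ r ∈ B, Clo G r B) → (∀ r ∈ B', Clo G r B') → ∀ o : V,
      (∀ w, G.dist o w ≤ ρ₁ + ρ' → w ∈ B') →
      (nzP V d p P).real {η | ¬ same T P B B' o (k + 1) η} ≤ δ / 2 := by
    intro V G hG T B B' hBB hB hB' o hball
    have hcard : ((bl G o ρ₁).card : ℝ) ≤ ((d + 1) ^ ρ₁ : ℕ) := by
      exact_mod_cast card_bl T.toPT hG o ρ₁
    have ho' : o ∈ B' := hball o (by rw [SimpleGraph.dist_self]; omega)
    have ho : o ∈ B := hBB ho'
    set μ := nzP V d p P with hμ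
    obtain ⟨X, X', hX, hX', hX0, hX0', hXe, hXe', hmain⟩ := hρ₁ V G hG T (ε k) (hs k).1 (hs k).2
      B' B hBB hB' hB o (fun w hw => hball w (by omega))
    -- the masked run
    set m : Dart V d → Bool := fun e => decide (e ∈ T.toPT.EB B') with hm
    have hrun : ∀ η : V → Nz d, T.cfg P B' η (k + 1) =
        runL (T.toPT.hs (P k) B' m) (zt k η) (T.lst B) (T.cfg P B' η k) := by
      intro η
      rw [cfg_succ, ← T.lst_filter B' B hBB]
      rw [runL_filter (R := T.toPT.hs (P k) B' m)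
        (R' := T.toPT.hs (P k) B' (fun _ => true)) (m := m)]
      · intro e _ he ξ ω
        unfold PT.hs
        rw [he]
      · intro e _ he ξ ω
        unfold PT.hs
        rw [he]
        simp
    set F : Cfg V d → Cfg V d → ℝ := fun ω ω' => if ω.1 o = ω'.1 o then 0 else 1 with hF
    have hF1 : ∀ ω ω', |F ω ω'| ≤ 1 := fun ω ω' => by simp only [hF]; split_ifs <;> simp
    have hRl : ∀ e ∈ T.lst B, ∀ ξ ω ω', T.toPT.Eqv B ω ω' →
        T.toPT.Eqv B (T.toPT.hs (P k) B (fun _ => true) e ξ ω)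
          (T.toPT.hs (P k) B (fun _ => true) e ξ ω') :=
      fun e he ξ ω ω' h => PT.hs_local (P k) _ (mem_lst_EB he) ξ h
    have hRl' : ∀ e ∈ T.lst B, ∀ ξ ω ω', T.toPT.Eqv B' ω ω' →
        T.toPT.Eqv B' (T.toPT.hs (P k) B' m e ξ ω) (T.toPT.hs (P k) B' m e ξ ω') := by
      intro e he ξ ω ω' h
      by_cases he' : e ∈ T.toPT.EB B'
      · exact PT.hs_local (P k) _ he' ξ h
      · have hme : m e = false := by simp [hm, he']
        unfold PT.hs
        rw [hme]
        simpa using h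
    have hFl : ∀ ω₁ ω₁' ω₂ ω₂', T.toPT.Eqv B ω₁ ω₂ → T.toPT.Eqv B' ω₁' ω₂' →
        F ω₁ ω₁' = F ω₂ ω₂' := by
      intro ω₁ ω₁' ω₂ ω₂' h h'
      simp only [hF]
      rw [h.1 o ho, h'.1 o ho']
    have hb := bridge_cfg (T := T) (P := P) (p := p) hp hK k hBB
      (R := T.toPT.hs (P k) B (fun _ => true)) (R' := T.toPT.hs (P k) B' m) F hF1 hFl hRl hRl'
    have h1 : μ.real {η | ¬ same T P B B' o (k + 1) η} =
        ∫ η, VP (p k) (P k).K (T.toPT.hs (P k) B (fun _ => true)) (T.toPT.hs (P k) B' m)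
          (T.lst B) F (T.cfg P B η k) (T.cfg P B' η k) ∂μ := by
      rw [← hb]
      apply real_eq_integral (same_cyl ho ho' (k + 1))
      · intro η h
        simp only [hF]
        rw [if_pos]
        rw [← hrun η]
        exact h
      · intro η h
        simp only [hF]
        rw [if_neg]
        rw [← hrun η]
        exact h
    rw [h1]
    -- pointwise bound
    have hpt : ∀ η : V → Nz d,
        VP (p k) (P k).K (T.toPT.hs (P k) B (fun _ => true)) (T.toPT.hs (P k) B' m)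
          (T.lst B) F (T.cfg P B η k) (T.cfg P B' η k) ≤
        (∑ v ∈ bl G o ρ₁, if same T P B B' v k η then (0 : ℝ) else 1) +
          (X (T.cfg P B η k) + X' (T.cfg P B' η k)) := by
      intro η
      have hnn : ∀ v, (0 : ℝ) ≤ if same T P B B' v k η then (0 : ℝ) else 1 := fun v => by
        split_ifs <;> norm_num
      by_cases hall : ∀ v ∈ bl G o ρ₁, same T P B B' v k η
      · have := hmain (T.cfg P B η k) (T.cfg P B' η k) (cons_cfg hkern hG hd η k)
          (cons_cfg hkern hG hd η k)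
          (fun v hv => hall v ((mem_bl T.toPT hG).mpr hv)) ?_
        · have h0 : (0 : ℝ) ≤ ∑ v ∈ bl G o ρ₁, if same T P B B' v k η then (0 : ℝ) else 1 :=
            Finset.sum_nonneg fun v _ => hnn v
          have h2 := this
          linarith
        · intro e he1 he2
          rw [cfg_snd, cfg_snd]
          apply decide_eq_decide.mpr
          have m1 : e.1 ∈ B' := hball _ (by omega)
          have m2 : (T.N0 e).1 ∈ B' := hball _ (by omega)
          have : e ∈ T.toPT.EB B ↔ e ∈ T.toPT.EB B' := by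
            rw [T.toPT.mem_EB, T.toPT.mem_EB]
            constructor
            · exact fun h => ⟨m1, h.2.1, m2⟩
            · exact fun h => ⟨hBB m1, h.2.1, hBB m2⟩
          rw [this]
      · push Not at hall
        obtain ⟨v, hv, hne⟩ := hall
        have h2 : (1 : ℝ) ≤ ∑ v ∈ bl G o ρ₁, if same T P B B' v k η then (0 : ℝ) else 1 := by
          have := Finset.single_le_sum (f := fun v => if same T P B B' v k η then (0 : ℝ) else 1)
            (fun v _ => hnn v) hv
          simp only [if_neg hne] at this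
          exact this
        have h3 := (abs_le.mp (VP_bound (hp k).1 (hp k).2 (hK k)
          (T.toPT.hs (P k) B (fun _ => true)) (T.toPT.hs (P k) B' m) F hF1 (T.lst B)
          (T.cfg P B η k) (T.cfg P B' η k))).2
        have h4 := hX0 (T.cfg P B η k)
        have h5 := hX0' (T.cfg P B' η k)
        linarith
    -- integrability
    have hint1 : Integrable (fun η => VP (p k) (P k).K (T.toPT.hs (P k) B (fun _ => true))
        (T.toPT.hs (P k) B' m) (T.lst B) F (T.cfg P B η k) (T.cfg P B' η k)) μ := by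
      have hc : Cyl (B ∪ B') k (fun η => VP (p k) (P k).K (T.toPT.hs (P k) B (fun _ => true))
        (T.toPT.hs (P k) B' m) (T.lst B) F (T.cfg P B η k) (T.cfg P B' η k)) := by
        intro η η' h
        exact VP_local _ _ hRl hRl' hFl
          (cfg_local k (fun v hv => h v (Finset.mem_union_left _ hv)))
          (cfg_local k (fun v hv => h v (Finset.mem_union_right _ hv)))
      exact hc.integrable fun η => VP_bound (hp k).1 (hp k).2 (hK k) _ _ F hF1 _ _ _
    have hint2 : ∀ v ∈ bl G o ρ₁, Integrable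
        (fun η => if same T P B B' v k η then (0 : ℝ) else 1) μ := by
      intro v hv
      have hv' : v ∈ B' := hball v (by have := (mem_bl T.toPT hG).mp hv; omega)
      exact ((same_cyl (hBB hv') hv' k).comp (fun r : Prop => if r then (0 : ℝ) else 1)).integrable
        (M := 1) fun η => by split_ifs <;> simp
    obtain ⟨M, hM⟩ := hX.bdd
    obtain ⟨M', hM'⟩ := hX'.bdd
    have hint3 : Integrable (fun η => X (T.cfg P B η k)) μ :=
      (cyl_cfg X (fun ω ω' h => hX.eq h) k).integrable fun η => hM _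
    have hint4 : Integrable (fun η => X' (T.cfg P B' η k)) μ :=
      (cyl_cfg X' (fun ω ω' h => hX'.eq h) k).integrable fun η => hM' _
    refine (integral_mono hint1 ((integrable_finsetSum _ hint2).add (hint3.add hint4)) hpt).trans ?_
    rw [integral_add' (integrable_finsetSum _ hint2) (hint3.add hint4),
      integral_add' hint3 hint4, integral_finsetSum _ hint2]
    have e1 : ∑ v ∈ bl G o ρ₁, ∫ η, (if same T P B B' v k η then (0 : ℝ) else 1) ∂μ ≤ δ / 8 := by
      have hle : ∀ v ∈ bl G o ρ₁, ∫ η, (if same T P B B' v k η then (0 : ℝ) else 1) ∂μ ≤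
          δ / (8 * ((d + 1) ^ ρ₁ : ℕ)) := by
        intro v hv
        have hvd := (mem_bl T.toPT hG).mp hv
        have hv' : v ∈ B' := hball v (by omega)
        rw [← real_eq_integral (same_cyl (hBB hv') hv' k) _ (fun η h => if_pos h)
          (fun η h => if_neg h)]
        apply hρ' V G hG T B B' hB hB' v
        · intro w hw
          apply hBB
          apply hball
          have := hG.connected.dist_triangle (u := o) (v := v) (w := w)
          omega
        · intro w hw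
          apply hball
          have := hG.connected.dist_triangle (u := o) (v := v) (w := w)
          omega
      refine (Finset.sum_le_sum hle).trans ?_
      rw [Finset.sum_const, nsmul_eq_mul]
      have hpos : (0 : ℝ) < ((d + 1) ^ ρ₁ : ℕ) := by positivity
      calc ((bl G o ρ₁).card : ℝ) * (δ / (8 * ((d + 1) ^ ρ₁ : ℕ)))
          ≤ ((d + 1) ^ ρ₁ : ℕ) * (δ / (8 * ((d + 1) ^ ρ₁ : ℕ))) :=
            mul_le_mul_of_nonneg_right hcard (by positivity)
        _ = δ / 8 := by field_simp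
    have ω₀ : Cfg V d := (fun _ => 1, fun _ => false)
    have e2 : ∫ η, X (T.cfg P B η k) ∂μ ≤ δ / 8 := by
      rw [law hp hK (fun P hK p ε L hL hLB F ω => hlaw V G hG T.toPT P hK p ε B L hL hLB F ω)
        ε hε0 hε k hX ω₀]
      exact hXe ω₀
    have e3 : ∫ η, X' (T.cfg P B' η k) ∂μ ≤ δ / 8 := by
      rw [law hp hK (fun P hK p ε L hL hLB F ω => hlaw V G hG T.toPT P hK p ε B' L hL hLB F ω)
        ε hε0 hε k hX' ω₀]
      exact hXe' ω₀
    linarith
  -- two-sided statement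
  intro V G hG T B B' hB hB' o hball hball'
  set C := bl G o (ρ₁ + ρ') with hC
  have hCB : C ⊆ B := fun v hv => hball v ((mem_bl T.toPT hG).mp hv)
  have hCB' : C ⊆ B' := fun v hv => hball' v ((mem_bl T.toPT hG).mp hv)
  have hCc := clo_bl T.toPT hG o (ρ₁ + ρ')
  have hCball : ∀ w, G.dist o w ≤ ρ₁ + ρ' → w ∈ C := fun w hw => (mem_bl T.toPT hG).mpr hw
  have h1 := one V G hG T B C hCB hB hCc o hCball
  have h2 := one V G hG T B' C hCB' hB' hCc o hCball
  have hsub : {η : V → Nz d | ¬ same T P B B' o (k + 1) η} ⊆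
      {η | ¬ same T P B C o (k + 1) η} ∪ {η | ¬ same T P B' C o (k + 1) η} := by
    intro η hη
    by_contra hc
    simp only [Set.mem_union, Set.mem_ofPred_eq, not_or, not_not] at hc hη
    apply hη
    unfold same at hc ⊢
    rw [hc.1, hc.2]
  calc (nzP V d p P).real {η | ¬ same T P B B' o (k + 1) η}
      ≤ (nzP V d p P).real ({η | ¬ same T P B C o (k + 1) η} ∪
          {η | ¬ same T P B' C o (k + 1) η}) := measureReal_mono hsub
    _ ≤ _ := measureReal_union_le _ _
    _ ≤ δ := by linarith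

end stab

/-- output of job M1 -/
theorem M1_out_of {d : ℕ} [NeZero d] (hd : 3 ≤ d) (hlaw : LawWindow d) (hstab : StabWindow d)
    (hcost : CostWindow d) (hkern : KernCons d) :
    ∃ (P : ℕ → Par) (p : ℕ → ℝ) (ρ : ℕ → ℕ) (c ε : ℕ → ℝ),
      (∀ k, 0 < (P k).K) ∧ (∀ k, 0 < p k ∧ p k ≤ 1) ∧ Summable c ∧ (∀ k, 0 ≤ c k) ∧
      Filter.Tendsto ε Filter.atTop (nhds 0) ∧
      ∀ (V : Type) (G : SimpleGraph V) (_ : G.IsTree) (T : OT G d),
        (∀ k o (B : Finset V), (∀ r ∈ B, Clo G r B) → (∀ w, G.dist o w ≤ ρ k → w ∈ B) →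
          nzP V d p P {η | (T.cfg P B η k).1 o ≠ (T.cfg P (bl G o (ρ k)) η k).1 o} ≤
            ENNReal.ofReal ((1 / 2) ^ k)) ∧
        (∀ k v (B : Finset V), (∀ r ∈ B, Clo G r B) → (∀ w, G.dist v w ≤ ρ k → w ∈ B) →
          nzP V d p P {η | (T.cfg P B η (k + 1)).1 v ≠ (T.cfg P B η k).1 v} ≤
            ENNReal.ofReal (c k)) ∧
        (∀ k (B : Finset V) e, e ∈ T.toPT.EB B →
          nzP V d p P {η | col (T.cfg P B η k).1 e ≠ col (T.cfg P B η k).1 (T.N0 e)} ≤
            ENNReal.ofReal (ε k)) := by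
  choose p₀ hp₀ hstab using hstab
  obtain ⟨C, R, hC, hcost⟩ := hcost
  obtain ⟨s, p, ε, hε0, hε, hp, hs, hlim, hsum⟩ := seq_choice p₀ hp₀ C hC
  have hp' : ∀ k, 0 ≤ p k ∧ p k ≤ 1 := fun k => ⟨(hp k).1.le, by linarith [(hp k).2.1]⟩
  have hw : ∀ k, IsProbabilityMeasure (winLaw (p k) (parS (s k)).K) :=
    fun k => winLaw_prob (hp' k).1 (hp' k).2 (parS_pos _)
  have hS : ∀ k, StabAt d s p k := by
    intro k
    induction k with
    | zero =>
      intro δ hδ
      refine ⟨0, fun V G hG T B B' _ _ o _ _ => ?_⟩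
      have : {η : V → Nz d | ¬ same T (fun k => parS (s k)) B B' o 0 η} = ∅ := by
        ext η
        simp [same, OT.cfg]
      rw [this]
      simpa using hδ.le
    | succ k ih =>
      exact stab_step hd hlaw hkern ε hp' hε0 hε hs k
        (fun δ hδ => hstab (s k) (p k) (hp k).1.le (hp k).2.2 δ hδ) ih
  choose ρ₀ hρ₀ using fun k => hS k ((1 / 2) ^ k) (by positivity)
  have hK : ∀ k, 0 < (parS (s k)).K := fun k => parS_pos _
  refine ⟨fun k => parS (s k), p, fun k => max (ρ₀ k) (R (s k)),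
    fun k => p k * (C / 2 ^ (s k)), ε, hK, fun k => ⟨(hp k).1, (hp' k).2⟩, hsum,
    fun k => mul_nonneg (hp k).1.le (by positivity), hlim, ?_⟩
  intro V G hG T
  set P : ℕ → Par := fun k => parS (s k) with hP
  have key : ∀ (E : Set (V → Nz d)) (x : ℝ), (nzP V d p P).real E ≤ x →
      nzP V d p P E ≤ ENNReal.ofReal x := by
    intro E x h
    rw [← ENNReal.ofReal_toReal (measure_ne_top (nzP V d p P) E)]
    exact ENNReal.ofReal_le_ofReal h
  refine ⟨?_, ?_, ?_⟩
  · intro k o B hB hball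
    apply key
    exact hρ₀ k V G hG T B (bl G o (max (ρ₀ k) (R (s k)))) hB (clo_bl T.toPT hG o _) o
      (fun w hw => hball w (hw.trans (le_max_left _ _)))
      (fun w hw => (mem_bl T.toPT hG).mpr (hw.trans (le_max_left _ _)))
  · intro k v B hB hball
    apply key
    have hv : v ∈ B := hball v (by rw [SimpleGraph.dist_self]; omega)
    set F : Cfg V d → Cfg V d → ℝ := fun ω ω' => if ω.1 v = ω'.1 v then 0 else 1 with hF
    have hF1 : ∀ ω ω', |F ω ω'| ≤ 1 := fun ω ω' => by simp only [hF]; split_ifs <;> simp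
    have hRl : ∀ e ∈ T.lst B, ∀ ξ ω ω', T.toPT.Eqv B ω ω' →
        T.toPT.Eqv B (T.toPT.hs (P k) B (fun _ => true) e ξ ω)
          (T.toPT.hs (P k) B (fun _ => true) e ξ ω') :=
      fun e he ξ ω ω' h => PT.hs_local (P k) _ (mem_lst_EB he) ξ h
    have hFl : ∀ ω₁ ω₁' ω₂ ω₂', T.toPT.Eqv B ω₁ ω₂ → T.toPT.Eqv B ω₁' ω₂' →
        F ω₁ ω₁' = F ω₂ ω₂' := by
      intro ω₁ ω₁' ω₂ ω₂' h h'
      simp only [hF]
      rw [h.1 v hv, h'.1 v hv]
    have hb := bridge_cfg (T := T) (P := P) (p := p) hp' hK k (Finset.Subset.refl B)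
      (R := T.toPT.hs (P k) B (fun _ => true)) (R' := fun _ _ ω => ω) F hF1 hFl hRl
      (fun _ _ _ _ _ h => h)
    simp only [runL_id] at hb
    have hcyl : Cyl B (k + 1) (fun η => (T.cfg P B η (k + 1)).1 v = (T.cfg P B η k).1 v) := by
      intro η η' h
      show ((T.cfg P B η (k + 1)).1 v = (T.cfg P B η k).1 v) =
        ((T.cfg P B η' (k + 1)).1 v = (T.cfg P B η' k).1 v)
      rw [(cfg_local (T := T) (P := P) (B := B) (k + 1) h).1 v hv,
        (cfg_local (T := T) (P := P) (B := B) k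
          (fun w hw => ⟨(h w hw).1, fun j hj => (h w hw).2 j (by omega)⟩)).1 v hv]
    have h1 : (nzP V d p P).real {η | (T.cfg P B η (k + 1)).1 v ≠ (T.cfg P B η k).1 v} =
        ∫ η, VP (p k) (P k).K (T.toPT.hs (P k) B (fun _ => true)) (fun _ _ ω => ω)
          (T.lst B) F (T.cfg P B η k) (T.cfg P B η k) ∂(nzP V d p P) := by
      rw [← hb]
      exact real_eq_integral hcyl _ (fun η h => if_pos h) (fun η h => if_neg h)
    rw [h1]
    have ω₀ : Cfg V d := (fun _ => 1, fun _ => false)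
    have hdep : T.toPT.DepOn B (fun ω => VP (p k) (P k).K (T.toPT.hs (P k) B (fun _ => true))
        (fun _ _ ω => ω) (T.lst B) F ω ω) := by
      intro ω ω' h1 h2
      have hE : T.toPT.Eqv B ω ω' := ⟨h1, h2⟩
      exact VP_local _ _ hRl (fun _ _ _ _ _ h => h) hFl hE hE
    have h2 := law (P := P) (p := p) hp' hK
      (fun P hK p ε L hL hLB F ω => hlaw V G hG T.toPT P hK p ε B L hL hLB F ω)
      ε hε0 hε k hdep ω₀
    rw [h2]
    exact hcost (s k) (p k) (hp k).1.le (hp k).2.1 V G hG T (ε k) (hs k).1 (hs k).2 B hB v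
      (fun w hw => hball w (hw.trans (le_max_right _ _))) ω₀
  · intro k B e he
    apply key
    refine (measureReal_mono (s₂ := {η | ∀ j < k, (zt j η e).1 = false}) ?_).trans
      (cut_prob hp' hK ε hε0 hε e k).le
    intro η hη
    by_contra hc
    apply hη
    simp only [Set.mem_ofPred_eq, not_forall, Bool.not_eq_false] at hc
    obtain ⟨j, hj, hz⟩ := hc
    have he' := T.toPT.mem_EB.mp he
    apply cons_cfg hkern hG hd η k
    rw [PT.nof_some]
    refine ⟨he'.1, he'.2.2, ?_, rfl⟩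
    rw [he'.2.1, cfg_snd]
    simp only [decide_eq_true_eq]
    exact ⟨he, j, hj, hz⟩

end FI
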