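import Pool.Agent.H99.FI.Noise.Bridge

/-!
# FI, job M1: locality of the update
-/

set_option autoImplicit false

namespace FI

open Finset Function MeasureTheory MeasureTheory.Measure
open scoped Classical

variable {V : Type*} {d : ℕ}

section local1

variable {N : Adj V d} {B : Finset V} {x y : St V d}

/-- agreement on `B` -/
def AgB (B : Finset V) (x y : St V d) : Prop := ∀ v ∈ B, x v = y v

/-- all edges of `N` end in `B` -/
def InB (N : Adj V d) (B : Finset V) : Prop := ∀ a b, N a = some b → b.1 ∈ B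

theorem col_local (h : AgB B x y) {a : Dart V d} (ha : a.1 ∈ B) : col x a = col y a := by
  unfold col; rw [h _ ha]

theorem dt_local (h : AgB B x y) {v : V} (hv : v ∈ B) (k : Fin d) : dt x v k = dt y v k := by
  unfold dt; rw [h _ hv]

theorem nx_local (h : AgB B x y) (τ : Equiv.Perm (Fin d)) {a : Dart V d} (ha : a.1 ∈ B) :
    nx N x τ a = nx N y τ a := by
  unfold nx; rw [col_local h ha, dt_local h ha]

theorem pos_local (hN : InB N B) (h : AgB B x y) (τ : Equiv.Perm (Fin d)) {a : Dart V d}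
    (ha : a.1 ∈ B) (n : ℕ) : pos N x τ a n = pos N y τ a n ∧
      ∀ f, pos N x τ a n = some f → f.1 ∈ B := by
  induction n with
  | zero =>
    refine ⟨rfl, fun f hf => ?_⟩
    simp only [pos, Option.some.injEq] at hf
    rw [← hf]; exact ha
  | succ n ih =>
    simp only [pos]
    rw [← ih.1]
    cases hp : pos N x τ a n with
    | none => simp
    | some f =>
      have hf := ih.2 f hp
      simp only [Option.bind_some]
      refine ⟨nx_local h τ hf, fun g hg => ?_⟩
      exact hN _ _ hg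

theorem onCh_local (hN : InB N B) (h : AgB B x y) (τ : Equiv.Perm (Fin d)) {a : Dart V d}
    (ha : a.1 ∈ B) (v : V) : onCh N x τ a v ↔ onCh N y τ a v := by
  unfold onCh
  simp only [fun n => (pos_local hN h τ ha n).1]

theorem flip_local (hN : InB N B) (h : AgB B x y) (τ : Equiv.Perm (Fin d)) {a : Dart V d}
    (ha : a.1 ∈ B) : AgB B (flip N x τ a) (flip N y τ a) := by
  intro v hv
  unfold flip
  rw [h v hv]
  by_cases hc : onCh N x τ a v
  · rw [if_pos hc, if_pos ((onCh_local hN h τ ha v).mp hc)]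
  · rw [if_neg hc, if_neg (fun h' => hc ((onCh_local hN h τ ha v).mpr h'))]

theorem sideOK_local (hN : InB N B) (h : AgB B x y) (J : ℕ) (τ : Equiv.Perm (Fin d))
    (a : Dart V d) : sideOK J N x τ a ↔ sideOK J N y τ a := by
  unfold sideOK
  constructor
  · intro h1 c hc
    rw [← (pos_local hN h τ (hN _ _ hc) J).1]
    exact h1 c hc
  · intro h1 c hc
    rw [(pos_local hN h τ (hN _ _ hc) J).1]
    exact h1 c hc

theorem own_local' (hN : InB N B) (h : AgB B x y) (J : ℕ) (τ : Equiv.Perm (Fin d)) (b : Fin d)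
    {a : Dart V d} (ha : a.1 ∈ B) (n : ℕ) (ho : own J N x τ b a n) : own J N y τ b a n := by
  obtain ⟨f, hf, h1, h2⟩ := ho
  have hp := pos_local hN h τ ha n
  have hfB := hp.2 f hf
  refine ⟨f, by rw [← hp.1]; exact hf, ?_, ?_⟩
  · rw [← col_local h hfB, ← dt_local h hfB, ← sideOK_local hN h]
    exact h1
  · rw [← col_local h hfB, ← dt_local h hfB, ← sideOK_local hN h]
    exact h2

theorem AgB.symm (h : AgB B x y) : AgB B y x := fun v hv => (h v hv).symm

theorem own_local (hN : InB N B) (h : AgB B x y) (J : ℕ) (τ : Equiv.Perm (Fin d)) (b : Fin d)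
    {a : Dart V d} (ha : a.1 ∈ B) (n : ℕ) : own J N x τ b a n ↔ own J N y τ b a n :=
  ⟨own_local' hN h J τ b ha n, own_local' hN h.symm J τ b ha n⟩

theorem cntOwn_local (hN : InB N B) (h : AgB B x y) (J : ℕ) (τ : Equiv.Perm (Fin d)) (b : Fin d)
    {a : Dart V d} (ha : a.1 ∈ B) (j : ℕ) : cntOwn J N x τ b a j = cntOwn J N y τ b a j := by
  unfold cntOwn
  congr 1
  exact Finset.filter_congr fun m _ => own_local hN h J τ b ha (2 * m)

theorem cntOth_local (hN : InB N B) (h : AgB B x y) (J : ℕ) (τ : Equiv.Perm (Fin d)) (b : Fin d)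
    {a : Dart V d} (ha : a.1 ∈ B) (j : ℕ) : cntOth J N x τ b a j = cntOth J N y τ b a j :=
  cntOwn_local hN (flip_local hN h τ ha) J τ b ha j

theorem avail_local (hN : InB N B) (h : AgB B x y) (P : Par) (τ : Equiv.Perm (Fin d))
    (b : Fin d) {a : Dart V d} (ha : a.1 ∈ B) : avail P N x τ b a = avail P N y τ b a := by
  unfold avail
  apply List.filter_congr
  intro j _
  apply decide_eq_decide.mpr
  unfold sel
  rw [own_local hN h P.J τ b ha, cntOwn_local hN h P.J τ b ha,
    cntOth_local hN h P.J τ b ha]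

theorem phi_local (hN : InB N B) (h : AgB B x y) (τ : Equiv.Perm (Fin d))
    (b : Fin d) {a : Dart V d} (ha : a.1 ∈ B) (n : ℕ) :
    AgB B (phi N x τ b a n) (phi N y τ b a n) := by
  intro v hv
  have hp := pos_local hN h τ ha
  unfold phi
  rw [← (hp n).1]
  cases hf : pos N x τ a n with
  | none => exact h v hv
  | some f =>
    have hfB := (hp n).2 f hf
    have c1 : (∃ i g, i < n ∧ pos N x τ a i = some g ∧ g.1 = v) ↔
        (∃ i g, i < n ∧ pos N y τ a i = some g ∧ g.1 = v) := by
      simp only [fun i => (hp i).1]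
    have c2 : ∀ (τ' : Equiv.Perm (Fin d)) (e : Dart V d),
        (∃ c, N e = some c ∧ onCh N x τ' c v) ↔ (∃ c, N e = some c ∧ onCh N y τ' c v) := by
      intro τ' e
      constructor
      · rintro ⟨c, hc, h1⟩
        exact ⟨c, hc, (onCh_local hN h τ' (hN _ _ hc) v).mp h1⟩
      · rintro ⟨c, hc, h1⟩
        exact ⟨c, hc, (onCh_local hN h τ' (hN _ _ hc) v).mpr h1⟩
    simp only [← col_local h hfB, ← dt_local h hfB, ← h v hv]
    by_cases h1 : v = f.1
    · simp only [if_pos h1]
    · simp only [if_neg h1]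
      by_cases h2 : ∃ i g, i < n ∧ pos N x τ a i = some g ∧ g.1 = v
      · rw [if_pos h2, if_pos (c1.mp h2)]
      · rw [if_neg h2, if_neg (fun h' => h2 (c1.mpr h'))]
        by_cases h3 : ∃ c, N (dt x f.1 (τ (col x f))) = some c ∧
            onCh N x (Equiv.swap (τ (col x f)) b) c v
        · rw [if_pos h3, if_pos ((c2 _ _).mp h3)]
        · rw [if_neg h3, if_neg (fun h' => h3 ((c2 _ _).mpr h'))]
          by_cases h4 : ∃ c, N (dt x f.1 b) = some c ∧ onCh N x (Equiv.swap b (col x f)) c v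
          · rw [if_pos h4, if_pos ((c2 _ _).mp h4)]
          · rw [if_neg h4, if_neg (fun h' => h4 ((c2 _ _).mpr h'))]

theorem kern_local_vol [NeZero d] (hN : InB N B) (h : AgB B x y) (P : Par) (ξ : ℕ)
    {a b' : Dart V d} (ha : a.1 ∈ B) (hb : b'.1 ∈ B) :
    AgB B (kern P N x ξ a b') (kern P N y ξ a b') := by
  unfold kern
  rw [← col_local h ha, ← col_local h hb, ← avail_local hN h P _ _ ha]
  by_cases h1 : col x a = col x b'
  · rw [if_pos h1, if_pos h1]; exact h
  · rw [if_neg h1, if_neg h1]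
    cases (avail P N x (Equiv.swap (col x a) (col x b')) (third (col x a) (col x b')) a)[ξ]? with
    | none => exact flip_local hN h _ hb
    | some j => exact phi_local hN h _ _ ha _

end local1

namespace PT

variable {G : SimpleGraph V} (T : PT G d)

/-- agreement of configurations in the volume `B` -/
def Eqv (B : Finset V) (ω ω' : Cfg V d) : Prop :=
  (∀ v ∈ B, ω.1 v = ω'.1 v) ∧ (∀ e ∈ T.EB B, ω.2 e = ω'.2 e)

variable {T} {B : Finset V}

theorem Eqv.refl (ω : Cfg V d) : T.Eqv B ω ω := ⟨fun _ _ => rfl, fun _ _ => rfl⟩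

theorem Eqv.mono {B' : Finset V} (h : B' ⊆ B) {ω ω' : Cfg V d} (ho : T.Eqv B ω ω') :
    T.Eqv B' ω ω' := ⟨fun v hv => ho.1 v (h hv), fun e he => ho.2 e (T.EB_mono h he)⟩

theorem DepOn.eq {F : Cfg V d → ℝ} (hF : T.DepOn B F) {ω ω' : Cfg V d} (h : T.Eqv B ω ω') :
    F ω = F ω' := hF ω ω' h.1 h.2

theorem inB_nof (u : Dart V d → Bool) : InB (T.nof B u) B := by
  intro a b h
  rw [nof_some] at h
  rw [← h.2.2.2]; exact h.2.1

theorem nof_local {u u' : Dart V d → Bool} (h : ∀ e ∈ T.EB B, u e = u' e) :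
    T.nof B u = T.nof B u' := by
  funext a
  unfold nof
  by_cases h1 : a.1 ∈ B
  · by_cases h2 : (T.N0 a).1 ∈ B
    · rw [h _ (T.cd_mem_EB h1 h2)]
    · simp [h2]
  · simp [h1]

theorem hs_local [NeZero d] (P : Par) (m : Dart V d → Bool) {e : Dart V d} (he : e ∈ T.EB B)
    (ξ : ℕ) {ω ω' : Cfg V d} (h : T.Eqv B ω ω') :
    T.Eqv B (T.hs P B m e ξ ω) (T.hs P B m e ξ ω') := by
  unfold PT.hs
  rw [← h.2 e he]
  by_cases hc : m e = true ∧ ω.2 e = false
  · rw [if_pos hc, if_pos hc]
    have he' := T.mem_EB.mp he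
    refine ⟨?_, ?_⟩
    · show AgB B _ _
      rw [nof_local h.2]
      exact kern_local_vol (inB_nof _) h.1 P ξ he'.1 he'.2.2
    · intro f hf
      by_cases hfe : f = e
      · subst hfe; simp
      · simp only [update_of_ne hfe]
        exact h.2 f hf
  · rw [if_neg hc, if_neg hc]; exact h

/-- statuses outside `m` unchanged, monotone -/
theorem hs_snd [NeZero d] (P : Par) (m : Dart V d → Bool) (e : Dart V d) (ξ : ℕ) (ω : Cfg V d)
    (f : Dart V d) : (T.hs P B m e ξ ω).2 f = (ω.2 f || (decide (f = e) && m e)) := by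
  unfold PT.hs
  by_cases hc : m e = true ∧ ω.2 e = false
  · rw [if_pos hc]
    by_cases hfe : f = e
    · subst hfe; simp [hc.1]
    · simp [update_of_ne hfe, hfe]
  · rw [if_neg hc]
    by_cases hfe : f = e
    · subst hfe
      by_cases hm : m f = true
      · have : ω.2 f = true := by
          by_contra h
          exact hc ⟨hm, by simpa using h⟩
        simp [this]
      · simp [hm]
    · simp [hfe]

end PT

section run

variable {G : SimpleGraph V} {T : PT G d} {B : Finset V}

theorem runL_local {R : Dart V d → ℕ → Cfg V d → Cfg V d} (ζ : Dart V d → Bool × ℕ)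
    {L : List (Dart V d)} {Q : Cfg V d → Cfg V d → Prop}
    (hR : ∀ e ∈ L, ∀ ξ ω ω', Q ω ω' → Q (R e ξ ω) (R e ξ ω')) {ω ω' : Cfg V d} (h : Q ω ω') :
    Q (runL R ζ L ω) (runL R ζ L ω') := by
  induction L generalizing ω ω' with
  | nil => exact h
  | cons e L ih =>
    rw [runL_cons, runL_cons]
    apply ih (fun e' he' => hR e' (by simp [he']))
    unfold stp
    split_ifs
    · exact hR e (by simp) _ _ _ h
    · exact h

theorem VP_local {R R' : Dart V d → ℕ → Cfg V d → Cfg V d} (q : ℝ) (K : ℕ)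
    {L : List (Dart V d)} {Q Q' : Cfg V d → Cfg V d → Prop}
    (hR : ∀ e ∈ L, ∀ ξ ω ω', Q ω ω' → Q (R e ξ ω) (R e ξ ω'))
    (hR' : ∀ e ∈ L, ∀ ξ ω ω', Q' ω ω' → Q' (R' e ξ ω) (R' e ξ ω'))
    {F : Cfg V d → Cfg V d → ℝ}
    (hF : ∀ ω₁ ω₁' ω₂ ω₂', Q ω₁ ω₂ → Q' ω₁' ω₂' → F ω₁ ω₁' = F ω₂ ω₂')
    {ω₁ ω₁' ω₂ ω₂' : Cfg V d} (h : Q ω₁ ω₂) (h' : Q' ω₁' ω₂') :
    VP q K R R' L F ω₁ ω₁' = VP q K R R' L F ω₂ ω₂' := by
  induction L generalizing ω₁ ω₁' ω₂ ω₂' with
  | nil => exact hF _ _ _ _ h h'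
  | cons e L ih =>
    have i := @ih (fun e' he' => hR e' (by simp [he'])) (fun e' he' => hR' e' (by simp [he']))
    simp only [VP]
    rw [i h h']
    congr 3
    exact Finset.sum_congr rfl fun ξ _ =>
      i (hR e (by simp) _ _ _ h) (hR' e (by simp) _ _ _ h')

/-- masked run -/
theorem runL_filter {R R' : Dart V d → ℕ → Cfg V d → Cfg V d} (ζ : Dart V d → Bool × ℕ)
    {L : List (Dart V d)} {m : Dart V d → Bool}
    (h1 : ∀ e ∈ L, m e = true → ∀ ξ ω, R e ξ ω = R' e ξ ω)
    (h2 : ∀ e ∈ L, m e = false → ∀ ξ ω, R e ξ ω = ω) (ω : Cfg V d) :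
    runL R ζ L ω = runL R' ζ (L.filter m) ω := by
  induction L generalizing ω with
  | nil => rfl
  | cons e L ih =>
    have i := ih (fun e' he' => h1 e' (by simp [he'])) (fun e' he' => h2 e' (by simp [he']))
    rw [runL_cons, i]
    by_cases hm : m e = true
    · rw [List.filter_cons_of_pos hm, runL_cons]
      congr 1
      unfold stp
      rw [h1 e (by simp) hm]
    · rw [List.filter_cons_of_neg hm]
      congr 1
      unfold stp
      rw [h2 e (by simp) (by simpa using hm)]
      simp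

theorem runL_id (ζ : Dart V d → Bool × ℕ) (L : List (Dart V d)) (ω : Cfg V d) :
    runL (fun _ _ ω => ω) ζ L ω = ω := by
  induction L generalizing ω with
  | nil => rfl
  | cons e L ih => rw [runL_cons, ih]; simp [stp]

/-- statuses after a run: an edge of the list is uncut iff it was or it is hit -/
theorem runL_snd [NeZero d] (P : Par) (m : Dart V d → Bool) (ζ : Dart V d → Bool × ℕ)
    (L : List (Dart V d)) (ω : Cfg V d) (f : Dart V d) :
    (runL (T.hs P B m) ζ L ω).2 f = (ω.2 f || (decide (f ∈ L) && (m f && (ζ f).1))) := by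
  induction L generalizing ω with
  | nil => simp [runL]
  | cons e L ih =>
    rw [runL_cons, ih]
    have : (stp (T.hs P B m) e (ζ e) ω).2 f = (ω.2 f || (decide (f = e) && (m e && (ζ e).1))) := by
      unfold stp
      by_cases hz : (ζ e).1 = true
      · rw [if_pos hz, PT.hs_snd, hz]; simp
      · rw [if_neg hz]
        simp only [Bool.not_eq_true] at hz
        simp [hz]
    rw [this]
    by_cases hfe : f = e
    · subst hfe
      simp only [decide_true, Bool.true_and, List.mem_cons, true_or]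
      cases ω.2 f <;> cases (m f && (ζ f).1) <;> simp
    · simp [hfe]

end run

end FI
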