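import Pool.Agent.H99.FI.Noise.Resample

/-!
# FI, job M1: cylinder functions of the noise and the bridging lemma
-/

set_option autoImplicit false

namespace FI

open Finset Function MeasureTheory MeasureTheory.Measure
open scoped Classical

variable {V : Type*} {d : ℕ}

/-! ### integrals over the one coordinate laws -/

theorem integral_pLaw (g : Equiv.Perm (Fin d) → ℝ) :
    ∫ σ, g σ ∂(pLaw d) = (1 / (d.factorial : ℝ)) * ∑ σ : Equiv.Perm (Fin d), g σ := by
  have : MeasurableSingletonClass (Equiv.Perm (Fin d)) := ⟨fun _ => trivial⟩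
  unfold pLaw
  rw [integral_finsetSum_measure]
  · rw [Finset.mul_sum]
    refine Finset.sum_congr rfl fun σ _ => ?_
    rw [integral_smul_measure, integral_dirac, ENNReal.toReal_div, ENNReal.toReal_natCast,
      ENNReal.toReal_one, smul_eq_mul]
  · intro σ _
    apply Integrable.smul_measure
    · exact integrable_dirac (by simp)
    · simp [d.factorial_pos.ne']

theorem integral_winLaw {q : ℝ} {K : ℕ} (h0 : 0 ≤ q) (h1 : q ≤ 1) (hK : 0 < K)
    (g : Bool × ℕ → ℝ) {M : ℝ} (hM : ∀ z, |g z| ≤ M) :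
    ∫ z, g z ∂(winLaw q K) = (1 - q) * ((1 / (K : ℝ)) * ∑ ξ ∈ range K, g (false, ξ)) +
      q * ((1 / (K : ℝ)) * ∑ ξ ∈ range K, g (true, ξ)) := by
  have := winLaw_prob h0 h1 hK
  have hint : Integrable g (winLaw q K) :=
    Integrable.of_bound (measurable_of_countable g).aestronglyMeasurable M
      (Filter.Eventually.of_forall hM)
  unfold winLaw at hint ⊢
  rw [integral_prod _ hint]
  have hin : ∀ b : Bool, ∫ ξ, g (b, ξ) ∂(∑ ξ ∈ range K, (1 / (K : ENNReal)) • Measure.dirac ξ) =
      (1 / (K : ℝ)) * ∑ ξ ∈ range K, g (b, ξ) := by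
    intro b
    rw [integral_finsetSum_measure]
    · rw [Finset.mul_sum]
      refine Finset.sum_congr rfl fun ξ _ => ?_
      rw [integral_smul_measure, integral_dirac, ENNReal.toReal_div, ENNReal.toReal_natCast,
        ENNReal.toReal_one, smul_eq_mul]
    · intro σ _
      apply Integrable.smul_measure
      · exact integrable_dirac (by simp)
      · simp [hK.ne']
  simp only [hin]
  rw [integral_add_measure, integral_smul_measure, integral_smul_measure, integral_dirac,
    integral_dirac, ENNReal.toReal_ofReal h0, ENNReal.toReal_ofReal (by linarith), smul_eq_mul,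
    smul_eq_mul, add_comm]
  · exact (integrable_dirac enorm_lt_top).smul_measure (by simp)
  · exact (integrable_dirac enorm_lt_top).smul_measure (by simp)

/-! ### cylinder functions -/

/-- `Φ` depends only on the initial states in `S` and on the windows `< k` in `S` -/
def Cyl {α : Type*} (S : Finset V) (k : ℕ) (Φ : (V → Nz d) → α) : Prop :=
  ∀ η η' : V → Nz d, (∀ v ∈ S, (η v).1 = (η' v).1 ∧ ∀ j < k, (η v).2 j = (η' v).2 j) →
    Φ η = Φ η'

theorem Cyl.mono {α : Type*} {S S' : Finset V} {k k' : ℕ} {Φ : (V → Nz d) → α}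
    (h : Cyl S k Φ) (hS : S ⊆ S') (hk : k ≤ k') : Cyl S' k' Φ :=
  fun η η' hη => h η η' fun v hv => ⟨(hη v (hS hv)).1, fun j hj => (hη v (hS hv)).2 j (by omega)⟩

theorem Cyl.comp {α β : Type*} {S : Finset V} {k : ℕ} {Φ : (V → Nz d) → α}
    (h : Cyl S k Φ) (f : α → β) : Cyl S k (fun η => f (Φ η)) :=
  fun η η' hη => congrArg f (h η η' hη)

theorem Cyl.comp₂ {α β γ : Type*} {S : Finset V} {k : ℕ} {Φ : (V → Nz d) → α}
    {Ψ : (V → Nz d) → β} (h : Cyl S k Φ) (h' : Cyl S k Ψ) (f : α → β → γ) :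
    Cyl S k (fun η => f (Φ η) (Ψ η)) :=
  fun η η' hη => by
    show f (Φ η) (Ψ η) = f (Φ η') (Ψ η')
    rw [h η η' hη, h' η η' hη]

theorem Cyl.measurable {α : Type*} [MeasurableSpace α] {S : Finset V} {k : ℕ}
    {Φ : (V → Nz d) → α} (h : Cyl S k Φ) : Measurable Φ := by
  have : MeasurableSingletonClass (Equiv.Perm (Fin d)) := ⟨fun _ => trivial⟩
  let C := (v : S) → Equiv.Perm (Fin d) × (Fin k → Fin d → Bool × ℕ)
  let r : (V → Nz d) → C := fun η v => ((η v).1, fun j => (η v).2 j)
  let ex : C → (V → Nz d) := fun c v =>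
    if hv : v ∈ S then ((c ⟨v, hv⟩).1, fun j => if hj : j < k then (c ⟨v, hv⟩).2 ⟨j, hj⟩
      else fun _ => (false, 0)) else (1, fun _ _ => (false, 0))
  have hr : Measurable r := by
    rw [measurable_pi_iff]
    intro v
    refine Measurable.prodMk (measurable_fst.comp (measurable_pi_apply _)) ?_
    rw [measurable_pi_iff]
    intro j
    exact (measurable_pi_apply _).comp (measurable_snd.comp (measurable_pi_apply _))
  have hΦ : Φ = (fun c => Φ (ex c)) ∘ r := by
    funext η
    apply h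
    intro v hv
    simp only [ex, r, dif_pos hv]
    refine ⟨trivial, fun j hj => ?_⟩
    rw [dif_pos hj]
  rw [hΦ]
  exact (measurable_of_countable _).comp hr

variable {p : ℕ → ℝ} {P : ℕ → Par}
variable [hw : ∀ k, IsProbabilityMeasure (winLaw (p k) (P k).K)]

theorem Cyl.integrable {S : Finset V} {k : ℕ} {Φ : (V → Nz d) → ℝ} (h : Cyl S k Φ) {M : ℝ}
    (hM : ∀ η, |Φ η| ≤ M) : Integrable Φ (nzP V d p P) :=
  Integrable.of_bound h.measurable.aestronglyMeasurable M (Filter.Eventually.of_forall hM)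

/-! ### the bridging lemma -/

/-- one step of the run -/
def stp (R : Dart V d → ℕ → Cfg V d → Cfg V d) (e : Dart V d) (z : Bool × ℕ) (ω : Cfg V d) :
    Cfg V d := if z.1 then R e z.2 ω else ω

theorem runL_cons (R : Dart V d → ℕ → Cfg V d → Cfg V d) (ζ : Dart V d → Bool × ℕ)
    (e : Dart V d) (L : List (Dart V d)) (ω : Cfg V d) :
    runL R ζ (e :: L) ω = runL R ζ L (stp R e (ζ e) ω) := rfl

theorem runL_congr (R : Dart V d → ℕ → Cfg V d → Cfg V d) {ζ ζ' : Dart V d → Bool × ℕ}
    {L : List (Dart V d)} (h : ∀ e ∈ L, ζ e = ζ' e) (ω : Cfg V d) :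
    runL R ζ L ω = runL R ζ' L ω := by
  induction L generalizing ω with
  | nil => rfl
  | cons e L ih =>
    rw [runL_cons, runL_cons, h e (by simp)]
    exact ih (fun e' he' => h e' (by simp [he'])) _

theorem VP_bound {q : ℝ} {K : ℕ} (h0 : 0 ≤ q) (h1 : q ≤ 1) (hK : 0 < K)
    (R R' : Dart V d → ℕ → Cfg V d → Cfg V d) (F : Cfg V d → Cfg V d → ℝ) {M : ℝ}
    (hM : ∀ ω ω', |F ω ω'| ≤ M) (L : List (Dart V d)) (ω ω' : Cfg V d) :
    |VP q K R R' L F ω ω'| ≤ M := by
  induction L generalizing ω ω' with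
  | nil => exact hM ω ω'
  | cons e L ih =>
    have hK' : (0 : ℝ) < K := by exact_mod_cast hK
    simp only [VP]
    have h2 : |(1 / (K : ℝ)) * ∑ ξ ∈ range K, VP q K R R' L F (R e ξ ω) (R' e ξ ω')| ≤ M := by
      rw [abs_mul, abs_of_pos (by positivity : (0 : ℝ) < 1 / K)]
      have h3 : |∑ ξ ∈ range K, VP q K R R' L F (R e ξ ω) (R' e ξ ω')| ≤ K * M := by
        refine (Finset.abs_sum_le_sum_abs _ _).trans ?_
        refine (Finset.sum_le_sum fun ξ _ => ih (R e ξ ω) (R' e ξ ω')).trans ?_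
        simp
      calc 1 / (K : ℝ) * |∑ ξ ∈ range K, VP q K R R' L F (R e ξ ω) (R' e ξ ω')|
          ≤ 1 / (K : ℝ) * (K * M) := mul_le_mul_of_nonneg_left h3 (by positivity)
        _ = M := by field_simp
    calc |(1 - q) * VP q K R R' L F ω ω' +
          q * ((1 / (K : ℝ)) * ∑ ξ ∈ range K, VP q K R R' L F (R e ξ ω) (R' e ξ ω'))|
        ≤ |(1 - q) * VP q K R R' L F ω ω'| +
          |q * ((1 / (K : ℝ)) * ∑ ξ ∈ range K, VP q K R R' L F (R e ξ ω) (R' e ξ ω'))| :=
          abs_add_le _ _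
      _ ≤ (1 - q) * M + q * M := by
          rw [abs_mul, abs_mul, abs_of_nonneg (by linarith : 0 ≤ 1 - q), abs_of_nonneg h0]
          exact add_le_add (mul_le_mul_of_nonneg_left (ih ω ω') (by linarith))
            (mul_le_mul_of_nonneg_left h2 h0)
      _ = M := by ring

/-- the noise of window `k` -/
def zt (k : ℕ) (η : V → Nz d) : Dart V d → Bool × ℕ := fun a => (η a.1).2 k a.2

theorem zt_upW_self (k : ℕ) (a : Dart V d) (z : Bool × ℕ) (η : V → Nz d) :
    zt k (upW k a z η) a = z := by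
  simp [zt, upW]

theorem zt_upW_ne (k : ℕ) {a b : Dart V d} (h : b ≠ a) (z : Bool × ℕ) (η : V → Nz d) :
    zt k (upW k a z η) b = zt k η b := by
  unfold zt upW
  by_cases h1 : b.1 = a.1
  · have h2 : b.2 ≠ a.2 := fun h2 => h (Prod.ext h1 h2)
    rw [h1]
    simp [update_of_ne h2]
  · rw [update_of_ne h1]

theorem Cyl.upW {α : Type*} {S : Finset V} {k : ℕ} {Φ : (V → Nz d) → α} (h : Cyl S k Φ)
    (a : Dart V d) (z : Bool × ℕ) (η : V → Nz d) : Φ (FI.upW k a z η) = Φ η := by
  apply h
  intro v _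
  unfold FI.upW
  by_cases hv : v = a.1
  · subst hv
    simp only [update_self, true_and]
    intro j hj
    rw [update_of_ne (by omega)]
  · rw [update_of_ne hv]
    exact ⟨rfl, fun _ _ => rfl⟩

theorem Cyl.runL {S : Finset V} {k : ℕ} {A : (V → Nz d) → Cfg V d}
    (R : Dart V d → ℕ → Cfg V d → Cfg V d) {L : List (Dart V d)} (hA : Cyl S k A)
    (hL : ∀ e ∈ L, e.1 ∈ S) : Cyl S (k + 1) (fun η => FI.runL R (zt k η) L (A η)) := by
  intro η η' h
  have h1 : A η = A η' := hA.mono (Finset.Subset.refl _) (Nat.le_succ k) η η' h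
  show FI.runL R (zt k η) L (A η) = FI.runL R (zt k η') L (A η')
  rw [h1]
  apply runL_congr
  intro e he
  unfold zt
  rw [(h e.1 (hL e he)).2 k (Nat.lt_succ_self k)]

theorem bridge (hp : ∀ k, 0 ≤ p k ∧ p k ≤ 1) (hK : ∀ k, 0 < (P k).K) (k : ℕ)
    (R R' : Dart V d → ℕ → Cfg V d → Cfg V d) (F : Cfg V d → Cfg V d → ℝ) {M : ℝ}
    (hM : ∀ ω ω', |F ω ω'| ≤ M) (S : Finset V) (L : List (Dart V d)) (hL : L.Nodup)
    (hS : ∀ e ∈ L, e.1 ∈ S) (A A' : (V → Nz d) → Cfg V d) (hA : Cyl S k A) (hA' : Cyl S k A') :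
    ∫ η, F (runL R (zt k η) L (A η)) (runL R' (zt k η) L (A' η)) ∂(nzP V d p P) =
      ∫ η, VP (p k) (P k).K R R' L F (A η) (A' η) ∂(nzP V d p P) := by
  induction L generalizing A A' with
  | nil => rfl
  | cons e L ih =>
    have hL' := List.nodup_cons.mp hL
    have hS' : ∀ e ∈ L, e.1 ∈ S := fun e' he' => hS e' (by simp [he'])
    set κ := winLaw (p k) (P k).K with hκ
    set μ := nzP V d p P with hμ
    set Φ : (V → Nz d) → ℝ :=
      fun η => F (runL R (zt k η) (e :: L) (A η)) (runL R' (zt k η) (e :: L) (A' η)) with hΦ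
    have hΦc : Cyl S (k + 1) Φ := (hA.runL R hS).comp₂ (hA'.runL R' hS) F
    have hmp := mp_upW (p := p) (P := P) (V := V) (d := d) k e
    have e1 : ∫ η, Φ η ∂μ = ∫ q, Φ (upW k e q.1 q.2) ∂(κ.prod μ) := by
      have := integral_map (μ := κ.prod μ) hmp.measurable.aemeasurable
        (f := Φ) (hΦc.measurable.aestronglyMeasurable)
      rw [hmp.map_eq] at this
      exact this
    have e2 : ∀ (z : Bool × ℕ) (η : V → Nz d), Φ (upW k e z η) =
        F (runL R (zt k η) L (stp R e z (A η))) (runL R' (zt k η) L (stp R' e z (A' η))) := by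
      intro z η
      simp only [hΦ, runL_cons, zt_upW_self, hA.upW, hA'.upW]
      congr 1
      · exact runL_congr R (fun e' he' => zt_upW_ne k (fun h => hL'.1 (by rw [← h]; exact he')) z η) _
      · exact runL_congr R' (fun e' he' => zt_upW_ne k (fun h => hL'.1 (by rw [← h]; exact he')) z η) _
    have hint : Integrable (fun q : (Bool × ℕ) × (V → Nz d) => Φ (upW k e q.1 q.2))
        (κ.prod μ) := by
      refine Integrable.of_bound ?_ M (Filter.Eventually.of_forall fun q => hM _ _)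
      exact (hΦc.measurable.comp hmp.measurable).aestronglyMeasurable
    rw [e1, integral_prod _ hint]
    have e3 : ∀ z, ∫ η, Φ (upW k e z η) ∂μ =
        ∫ η, VP (p k) (P k).K R R' L F (stp R e z (A η)) (stp R' e z (A' η)) ∂μ := by
      intro z
      simp only [e2]
      exact ih hL'.2 hS' _ _ (hA.comp (stp R e z)) (hA'.comp (stp R' e z))
    simp only [e3]
    have hb : ∀ ω ω', |VP (p k) (P k).K R R' L F ω ω'| ≤ M :=
      VP_bound (hp k).1 (hp k).2 (hK k) R R' F hM L
    rw [integral_winLaw (hp k).1 (hp k).2 (hK k) _ (M := M)]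
    · have hKr : (0 : ℝ) < (P k).K := by exact_mod_cast hK k
      simp only [VP, stp, Bool.false_eq_true, if_false, if_true, Finset.sum_const,
        Finset.card_range, nsmul_eq_mul]
      have i1 : Integrable (fun η => VP (p k) (P k).K R R' L F (A η) (A' η)) μ :=
        (hA.comp₂ hA' (VP (p k) (P k).K R R' L F)).integrable fun η => hb _ _
      have i2 : ∀ ξ, Integrable (fun η => VP (p k) (P k).K R R' L F (R e ξ (A η))
          (R' e ξ (A' η))) μ := fun ξ =>
        (hA.comp₂ hA' (fun ω ω' => VP (p k) (P k).K R R' L F (R e ξ ω) (R' e ξ ω'))).integrable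
          fun η => hb _ _
      rw [integral_add, integral_const_mul, integral_const_mul, integral_const_mul,
        integral_finsetSum]
      · field_simp
      · exact fun ξ _ => i2 ξ
      · exact i1.const_mul _
      · exact ((integrable_finsetSum _ fun ξ _ => i2 ξ).const_mul _).const_mul _
    · intro z
      have : ‖∫ η, VP (p k) (P k).K R R' L F (stp R e z (A η)) (stp R' e z (A' η)) ∂μ‖ ≤ M := by
        refine (norm_integral_le_of_norm_le_const (C := M)
          (Filter.Eventually.of_forall fun η => hb _ _)).trans ?_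
        simp
      exact this

end FI
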