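import Pool.Agent.H99.FI.Noise.Local

/-!
# FI, job M1: facts on the configurations, and the exact law
-/

set_option autoImplicit false

namespace FI

open Finset Function MeasureTheory MeasureTheory.Measure
open scoped Classical

variable {V : Type*} {d : ℕ}

/-- a function which factors through a finite type is bounded -/
theorem bdd_of_fin {α β : Type*} [Fintype β] (enc : α → β) (dec : β → α) (F : α → ℝ)
    (h : ∀ a, F (dec (enc a)) = F a) : ∃ M : ℝ, ∀ a, |F a| ≤ M := by
  refine ⟨∑ b, |F (dec b)|, fun a => ?_⟩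
  rw [← h a]
  exact Finset.single_le_sum (f := fun b => |F (dec b)|) (fun b _ => abs_nonneg _)
    (Finset.mem_univ (enc a))

/-! ### locality of the averages -/

theorem AV_local (ε : Dart V d → ℝ) {Q : Cfg V d → Cfg V d → Prop}
    (hQ : ∀ i t ω ω', Q ω ω' → Q (upc i t ω) (upc i t ω')) {H : Cfg V d → ℝ}
    (hH : ∀ ω ω', Q ω ω' → H ω = H ω') (s : Finset (V ⊕ Dart V d)) :
    ∀ ω ω', Q ω ω' → AV ε s H ω = AV ε s H ω' := by
  induction s using Finset.induction_on with
  | empty => exact hH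
  | insert i s hi ih =>
    intro ω ω' h
    rw [AV_insert ε hi, av1_eq, av1_eq]
    exact Finset.sum_congr rfl fun t _ => by rw [ih _ _ (hQ i t ω ω' h)]

namespace PT

variable {G : SimpleGraph V} {T : PT G d} {B : Finset V}

theorem Eqv.upc (i : V ⊕ Dart V d) (t : Equiv.Perm (Fin d) × Bool) {ω ω' : Cfg V d}
    (h : T.Eqv B ω ω') : T.Eqv B (FI.upc i t ω) (FI.upc i t ω') := by
  cases i with
  | inl v =>
    refine ⟨fun w hw => ?_, h.2⟩
    by_cases hwv : w = v
    · subst hwv; simp [FI.upc]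
    · simp only [FI.upc, update_of_ne hwv]; exact h.1 w hw
  | inr e =>
    refine ⟨h.1, fun f hf => ?_⟩
    by_cases hfe : f = e
    · subst hfe; simp [FI.upc]
    · simp only [FI.upc, update_of_ne hfe]; exact h.2 f hf

theorem DepOn.bdd {F : Cfg V d → ℝ} (hF : T.DepOn B F) : ∃ M : ℝ, ∀ ω, |F ω| ≤ M := by
  refine bdd_of_fin (β := ((v : B) → Equiv.Perm (Fin d)) × ((e : T.EB B) → Bool))
    (fun ω => (fun v => ω.1 v, fun e => ω.2 e))
    (fun c => (fun v => if hv : v ∈ B then c.1 ⟨v, hv⟩ else 1,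
      fun e => if he : e ∈ T.EB B then c.2 ⟨e, he⟩ else false)) F ?_
  intro ω
  apply hF
  · intro v hv; simp [hv]
  · intro e he; simp [he]

theorem zw_local {e : Dart V d} (he : e ∈ T.EB B) {ω ω' : Cfg V d} (h : T.Eqv B ω ω') :
    T.zw e ω = T.zw e ω' := by
  have he' := T.mem_EB.mp he
  unfold zw col
  rw [h.2 e he, h.1 _ he'.1, h.1 _ he'.2.2]

theorem EE_empty_const (ε : Dart V d → ℝ) {F : Cfg V d → ℝ} (hF : T.DepOn B F)
    (ω ω' : Cfg V d) : T.EE ε B ∅ F ω = T.EE ε B ∅ F ω' := by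
  have h1 : ∀ ω ω', T.Eqv B ω ω' → T.EE ε B ∅ F ω = T.EE ε B ∅ F ω' := by
    unfold PT.EE
    apply AV_local ε (Q := T.Eqv B) (fun i t ω ω' h => h.upc i t)
    intro ω ω' h
    rw [hF.eq h]
    congr 1
    refine Finset.prod_congr rfl fun e he => ?_
    exact zw_local (Finset.mem_sdiff.mp he).1 h
  let ω'' : Cfg V d := (fun v => if v ∈ B then ω.1 v else ω'.1 v,
    fun e => if e ∈ T.EB B then ω.2 e else ω'.2 e)
  have h2 : T.EE ε B ∅ F ω'' = T.EE ε B ∅ F ω' := by
    apply EE_noDep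
    refine ⟨fun v hv => ?_, fun e he => ?_⟩
    · rw [mem_cA_inl] at hv
      have : v ∉ B := fun h => hv ⟨h, by simp⟩
      simp [ω'', this]
    · rw [mem_cA_inr] at he
      have : e ∉ T.EB B := fun h => he ⟨h, by simp [T.mem_EB]⟩
      simp [ω'', this]
  rw [← h2]
  apply h1
  refine ⟨fun v hv => ?_, fun e he => ?_⟩
  · simp [ω'', hv]
  · simp [ω'', he]

end PT

/-! ### the configurations -/

section cfg

variable {G : SimpleGraph V} {T : OT G d} [NeZero d] {P : ℕ → Par} {B : Finset V}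

theorem cfg_succ (η : V → Nz d) (k : ℕ) : T.cfg P B η (k + 1) =
    runL (T.toPT.hs (P k) B (fun _ => true)) (zt k η) (T.lst B) (T.cfg P B η k) := rfl

theorem mem_lst_EB {e : Dart V d} (he : e ∈ T.lst B) : e ∈ T.toPT.EB B := (T.lst_mem B e).mp he

theorem cfg_local {η η' : V → Nz d} (k : ℕ)
    (h : ∀ v ∈ B, (η v).1 = (η' v).1 ∧ ∀ j < k, (η v).2 j = (η' v).2 j) :
    T.toPT.Eqv B (T.cfg P B η k) (T.cfg P B η' k) := by
  induction k with
  | zero => exact ⟨fun v hv => (h v hv).1, fun _ _ => rfl⟩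
  | succ k ih =>
    have i := ih fun v hv => ⟨(h v hv).1, fun j hj => (h v hv).2 j (by omega)⟩
    rw [cfg_succ, cfg_succ]
    rw [runL_congr (ζ := zt k η) (ζ' := zt k η')]
    · exact runL_local _ (fun e he ξ ω ω' hω => PT.hs_local (P k) _ (mem_lst_EB he) ξ hω) i
    · intro e he
      have := T.toPT.mem_EB.mp (mem_lst_EB he)
      unfold zt
      rw [(h e.1 this.1).2 k (Nat.lt_succ_self k)]

theorem cfg_snd (η : V → Nz d) (k : ℕ) (f : Dart V d) :
    (T.cfg P B η k).2 f = decide (f ∈ T.toPT.EB B ∧ ∃ j < k, (zt j η f).1 = true) := by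
  induction k with
  | zero => simp [OT.cfg]
  | succ k ih =>
    have hm : decide (f ∈ T.lst B) = decide (f ∈ T.toPT.EB B) :=
      decide_eq_decide.mpr (T.lst_mem B f)
    rw [cfg_succ, runL_snd, ih, hm]
    by_cases hf : f ∈ T.toPT.EB B
    · simp only [hf, true_and, decide_true, Bool.true_and]
      by_cases h1 : ∃ j < k, (zt j η f).1 = true
      · have h2 : ∃ j < k + 1, (zt j η f).1 = true := by
          obtain ⟨j, hj, h⟩ := h1
          exact ⟨j, by omega, h⟩
        simp only [h1, h2, decide_true, Bool.true_or]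
      · by_cases h3 : (zt k η f).1 = true
        · have h2 : ∃ j < k + 1, (zt j η f).1 = true := ⟨k, by omega, h3⟩
          simp only [h2, h3, decide_true, Bool.or_true]
        · have h2 : ¬ ∃ j < k + 1, (zt j η f).1 = true := by
            rintro ⟨j, hj, h⟩
            rcases Nat.lt_succ_iff_lt_or_eq.mp hj with h' | h'
            · exact h1 ⟨j, h', h⟩
            · subst h'; exact h3 h
          simp only [h1, h2, h3, decide_false, Bool.false_or]
    · simp [hf]

/-- truncation to the volume -/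
noncomputable def trB (T : PT G d) (B : Finset V) (ω : Cfg V d) : Cfg V d :=
  (fun v => if v ∈ B then ω.1 v else 1, fun e => if e ∈ T.EB B then ω.2 e else false)

omit [NeZero d] in
theorem trB_eqv (ω : Cfg V d) : T.toPT.Eqv B (trB T.toPT B ω) ω :=
  ⟨fun v hv => by simp [trB, hv], fun e he => by simp [trB, he]⟩

omit [NeZero d] in
theorem trB_congr {ω ω' : Cfg V d} (h : T.toPT.Eqv B ω ω') :
    trB T.toPT B ω = trB T.toPT B ω' := by
  unfold trB
  refine Prod.ext (funext fun v => ?_) (funext fun e => ?_)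
  · by_cases hv : v ∈ B
    · simp [hv, h.1 v hv]
    · simp [hv]
  · by_cases he : e ∈ T.toPT.EB B
    · simp [he, h.2 e he]
    · simp [he]

theorem cyl_tr (k : ℕ) : Cyl B k (fun η => trB T.toPT B (T.cfg P B η k)) :=
  fun _ _ h => trB_congr (cfg_local k h)

theorem cyl_cfg {α : Type*} (F : Cfg V d → α)
    (hF : ∀ ω ω', T.toPT.Eqv B ω ω' → F ω = F ω') (k : ℕ) :
    Cyl B k (fun η => F (T.cfg P B η k)) :=
  fun _ _ h => hF _ _ (cfg_local k h)

theorem cons_run (hG : G.IsTree) (hd : 3 ≤ d)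
    (hkern : ∀ (P : Par) (N : Adj V d) (a b' : Dart V d), (∀ a b, N a = some b → N b = some a) →
      Forest (addE N a b') → N a = none → N b' = none → a ≠ b' → ∀ x : St V d, Cons N x →
      ∀ ξ : ℕ, Cons (addE N a b') (kern P N x ξ a b'))
    (P : Par) (m : Dart V d → Bool) (ζ : Dart V d → Bool × ℕ) (L : List (Dart V d))
    (hL : ∀ e ∈ L, e ∈ T.toPT.EB B) (ω : Cfg V d) (h : Cons (T.toPT.nof B ω.2) ω.1) :
    Cons (T.toPT.nof B (runL (T.toPT.hs P B m) ζ L ω).2) (runL (T.toPT.hs P B m) ζ L ω).1 := by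
  induction L generalizing ω with
  | nil => exact h
  | cons e L ih =>
    rw [runL_cons]
    apply ih (fun e' he' => hL e' (by simp [he']))
    unfold stp
    split_ifs with hz
    · have he := hL e (by simp)
      have he' := T.toPT.mem_EB.mp he
      unfold PT.hs
      by_cases hc : m e = true ∧ ω.2 e = false
      · rw [if_pos hc]
        show Cons (T.toPT.nof B (update ω.2 e true)) _
        have hn := T.toPT.nof_none_of_cut (B := B) he'.2.1 hc.2
        rw [← T.toPT.addE_nof he]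
        apply hkern P _ _ _ (fun a b h => T.toPT.nof_symm h) _ hn.1 hn.2 _ _ h
        · rw [T.toPT.addE_nof he]
          exact T.toPT.forest_nof hG B _
        · intro h'
          exact T.toPT.N0_ne e (by rw [← h'])
      · rw [if_neg hc]; exact h
    · exact h

end cfg

/-! ### the exact law -/

section law

variable {G : SimpleGraph V} {T : OT G d} [NeZero d] {P : ℕ → Par} {p : ℕ → ℝ} {B : Finset V}
variable [hw : ∀ k, IsProbabilityMeasure (winLaw (p k) (P k).K)]

/-- initial states -/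
def x₀ (η : V → Nz d) : St V d := fun v => (η v).1

omit [NeZero d] in
theorem int_av1 (S : Finset V) (g : St V d → ℝ) (hg : ∀ x y, AgB S x y → g x = g y) (v : V) :
    ∫ η, g (x₀ η) ∂(nzP V d p P) = ∫ η, (1 / (d.factorial : ℝ)) *
      ∑ σ : Equiv.Perm (Fin d), g (update (x₀ η) v σ) ∂(nzP V d p P) := by
  have : MeasurableSingletonClass (Equiv.Perm (Fin d)) := ⟨fun _ => trivial⟩
  obtain ⟨M, hM⟩ := bdd_of_fin (β := (w : S) → Equiv.Perm (Fin d)) (fun x w => x w)
    (fun c w => if hw : w ∈ S then c ⟨w, hw⟩ else 1) g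
    (fun x => hg _ _ fun w hw => by simp [hw])
  set μ := nzP V d p P with hμ
  have hc : Cyl S 0 (fun η : V → Nz d => g (x₀ η)) := fun η η' h => hg _ _ fun w hw => (h w hw).1
  have hmp := mp_upS (p := p) (P := P) (V := V) (d := d) v
  have e1 : ∫ η, g (x₀ η) ∂μ = ∫ q, g (x₀ (upS v q.1 q.2)) ∂((pLaw d).prod μ) := by
    have := integral_map (μ := (pLaw d).prod μ) hmp.measurable.aemeasurable
      (f := fun η => g (x₀ η)) (hc.measurable.aestronglyMeasurable)
    rw [hmp.map_eq] at this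
    exact this
  have e2 : ∀ (σ : Equiv.Perm (Fin d)) (η : V → Nz d), x₀ (upS v σ η) = update (x₀ η) v σ := by
    intro σ η
    funext w
    unfold x₀ upS
    by_cases hwv : w = v
    · subst hwv; simp
    · rw [update_of_ne hwv, update_of_ne hwv]
  have hint : Integrable (fun q : Equiv.Perm (Fin d) × (V → Nz d) => g (x₀ (upS v q.1 q.2)))
      ((pLaw d).prod μ) := by
    refine Integrable.of_bound ?_ M (Filter.Eventually.of_forall fun q => hM _)
    exact (hc.measurable.comp hmp.measurable).aestronglyMeasurable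
  rw [e1, integral_prod _ hint, integral_pLaw, integral_const_mul, integral_finsetSum]
  · simp only [e2]
  · intro σ _
    have hc' : Cyl S 0 (fun η : V → Nz d => g (update (x₀ η) v σ)) := by
      intro η η' h
      apply hg
      intro w hw
      by_cases hwv : w = v
      · subst hwv; simp
      · rw [update_of_ne hwv, update_of_ne hwv]; exact (h w hw).1
    exact hc'.integrable fun η => hM _

omit [NeZero d] in
theorem int_AV_inl (ε : Dart V d → ℝ) (S : Finset V) (H : Cfg V d → ℝ) (u : Dart V d → Bool)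
    (hH : ∀ x y u, AgB S x y → H (x, u) = H (y, u)) (A : Finset V) :
    ∫ η, H (x₀ η, u) ∂(nzP V d p P) =
      ∫ η, AV ε (A.image Sum.inl) H (x₀ η, u) ∂(nzP V d p P) := by
  induction A using Finset.induction_on with
  | empty => simp
  | insert v A hv ih =>
    have hi : (Sum.inl v : V ⊕ Dart V d) ∉ A.image Sum.inl := by simp [hv]
    rw [ih, Finset.image_insert, int_av1 S (fun x => AV ε (A.image Sum.inl) H (x, u)) _ v]
    · congr 1
      funext η
      rw [AV_insert ε hi]
      rfl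
    · intro x y hxy
      refine AV_local ε (Q := fun ω ω' => AgB S ω.1 ω'.1 ∧ ω.2 = ω'.2) ?_ ?_ _ _ _ ⟨hxy, rfl⟩
      · intro i t ω ω' h
        cases i with
        | inl w =>
          refine ⟨fun z hz => ?_, h.2⟩
          by_cases hzw : z = w
          · subst hzw; simp [upc]
          · simp only [upc, update_of_ne hzw]; exact h.1 z hz
        | inr e =>
          refine ⟨h.1, ?_⟩
          simp only [upc, h.2]
      · rintro ⟨x, u⟩ ⟨y, u'⟩ ⟨h1, h2⟩
        simp only at h2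
        subst h2
        exact hH x y u h1

omit [NeZero d] in
theorem AV_one_inr (H : Cfg V d → ℝ) (x : St V d) (E : Finset (Dart V d)) :
    AV (fun _ => (1 : ℝ)) (E.image Sum.inr) H (x, fun _ => false) = H (x, fun _ => false) := by
  induction E using Finset.induction_on with
  | empty => simp
  | insert e E he ih =>
    have hi : (Sum.inr e : V ⊕ Dart V d) ∉ E.image Sum.inr := by simp [he]
    rw [Finset.image_insert, AV_insert _ hi]
    have hu : update (fun _ : Dart V d => false) e false = fun _ => false := by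
      funext f
      by_cases hf : f = e
      · subst hf; simp
      · rw [update_of_ne hf]
    simp only [av1, sub_self, zero_mul, zero_add, one_mul, hu]
    exact ih

theorem law_zero {F : Cfg V d → ℝ} (hF : T.toPT.DepOn B F) (ω : Cfg V d) :
    ∫ η, F (T.cfg P B η 0) ∂(nzP V d p P) = T.toPT.EE (fun _ => 1) B ∅ F ω := by
  set μ := nzP V d p P with hμ
  have h1 : T.toPT.EE (fun _ => 1) B ∅ F ω =
      ∫ η, T.toPT.EE (fun _ => 1) B ∅ F (x₀ η, fun _ => false) ∂μ := by
    have : ∀ η : V → Nz d, T.toPT.EE (fun _ => 1) B ∅ F (x₀ η, fun _ => false) =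
        T.toPT.EE (fun _ => 1) B ∅ F ω := fun η => PT.EE_empty_const _ hF _ _
    simp only [this]
    simp
  rw [h1]
  unfold PT.EE PT.cA
  set H : Cfg V d → ℝ := fun ω => (∏ e ∈ T.toPT.EB B \ T.toPT.EB ∅, T.toPT.zw e ω) * F ω with hH
  have hdisj : Disjoint ((B \ ∅).image (Sum.inl : V → V ⊕ Dart V d))
      ((T.toPT.EB B \ T.toPT.EB ∅).image Sum.inr) := by
    rw [Finset.disjoint_left]
    intro c hc hc'
    simp only [Finset.mem_image] at hc hc'
    obtain ⟨v, _, rfl⟩ := hc
    obtain ⟨e, _, he⟩ := hc'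
    cases he
  simp only [AV_union _ hdisj]
  have hHl : ∀ x y u, AgB B x y → H (x, u) = H (y, u) := by
    intro x y u hxy
    have hE : T.toPT.Eqv B (x, u) (y, u) := ⟨hxy, fun _ _ => rfl⟩
    simp only [hH]
    rw [hF.eq hE]
    congr 1
    exact Finset.prod_congr rfl fun e he => PT.zw_local (Finset.mem_sdiff.mp he).1 hE
  rw [← int_AV_inl (fun _ => 1) B _ (fun _ => false)]
  · congr 1
    funext η
    rw [AV_one_inr]
    simp only [hH]
    have : ∏ e ∈ T.toPT.EB B \ T.toPT.EB ∅, T.toPT.zw e (x₀ η, fun _ => false) = 1 :=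
      Finset.prod_eq_one fun e _ => by simp [PT.zw]
    rw [this, one_mul]
    rfl
  · intro x y u hxy
    refine AV_local _ (Q := fun ω ω' => AgB B ω.1 ω'.1 ∧ ω.2 = ω'.2) ?_ ?_ _ _ _ ⟨hxy, rfl⟩
    · intro i t ω ω' h
      cases i with
      | inl w =>
        refine ⟨fun z hz => ?_, h.2⟩
        by_cases hzw : z = w
        · subst hzw; simp [upc]
        · simp only [upc, update_of_ne hzw]; exact h.1 z hz
      | inr e =>
        refine ⟨h.1, ?_⟩
        simp only [upc, h.2]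
    · rintro ⟨x, u⟩ ⟨y, u'⟩ ⟨h1, h2⟩
      simp only at h2
      subst h2
      exact hHl x y u h1

/-- one window: bridging for the configurations of one or two volumes -/
theorem bridge_cfg (hp : ∀ k, 0 ≤ p k ∧ p k ≤ 1) (hK : ∀ k, 0 < (P k).K) (k : ℕ)
    {B' : Finset V} (hB : B' ⊆ B) {R R' : Dart V d → ℕ → Cfg V d → Cfg V d}
    (F : Cfg V d → Cfg V d → ℝ) {M : ℝ} (hM : ∀ ω ω', |F ω ω'| ≤ M)
    (hF : ∀ ω₁ ω₁' ω₂ ω₂', T.toPT.Eqv B ω₁ ω₂ → T.toPT.Eqv B' ω₁' ω₂' → F ω₁ ω₁' = F ω₂ ω₂')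
    (hR : ∀ e ∈ T.lst B, ∀ ξ ω ω', T.toPT.Eqv B ω ω' → T.toPT.Eqv B (R e ξ ω) (R e ξ ω'))
    (hR' : ∀ e ∈ T.lst B, ∀ ξ ω ω', T.toPT.Eqv B' ω ω' → T.toPT.Eqv B' (R' e ξ ω) (R' e ξ ω')) :
    ∫ η, F (runL R (zt k η) (T.lst B) (T.cfg P B η k))
        (runL R' (zt k η) (T.lst B) (T.cfg P B' η k)) ∂(nzP V d p P) =
      ∫ η, VP (p k) (P k).K R R' (T.lst B) F (T.cfg P B η k) (T.cfg P B' η k)
        ∂(nzP V d p P) := by
  have hb := bridge (P := P) (p := p) hp hK k R R' F hM B (T.lst B) (T.lst_nodup B)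
    (fun e he => (T.toPT.mem_EB.mp (mem_lst_EB he)).1)
    (fun η => trB T.toPT B (T.cfg P B η k)) (fun η => trB T.toPT B' (T.cfg P B' η k))
    (cyl_tr k) ((cyl_tr k).mono hB le_rfl)
  have h1 : ∀ η : V → Nz d, F (runL R (zt k η) (T.lst B) (trB T.toPT B (T.cfg P B η k)))
        (runL R' (zt k η) (T.lst B) (trB T.toPT B' (T.cfg P B' η k))) =
      F (runL R (zt k η) (T.lst B) (T.cfg P B η k))
        (runL R' (zt k η) (T.lst B) (T.cfg P B' η k)) := by
    intro η
    exact hF _ _ _ _ (runL_local _ hR (trB_eqv _)) (runL_local _ hR' (trB_eqv _))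
  have h2 : ∀ η : V → Nz d, VP (p k) (P k).K R R' (T.lst B) F (trB T.toPT B (T.cfg P B η k))
        (trB T.toPT B' (T.cfg P B' η k)) =
      VP (p k) (P k).K R R' (T.lst B) F (T.cfg P B η k) (T.cfg P B' η k) := by
    intro η
    exact VP_local _ _ hR hR' hF (trB_eqv _) (trB_eqv _)
  simp only [h1, h2] at hb
  exact hb

/-- the law of the configuration after `k` windows -/
theorem law (hp : ∀ k, 0 ≤ p k ∧ p k ≤ 1) (hK : ∀ k, 0 < (P k).K)
    (hlaw : ∀ (P : Par) (_ : 0 < P.K) (p ε : ℝ) (L : List (Dart V d)) (_ : L.Nodup)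
      (_ : ∀ a, a ∈ L ↔ a ∈ T.toPT.EB B) (F : Cfg V d → ℝ) (ω : Cfg V d),
      T.toPT.EE (fun _ => ε) B ∅ (fun ω => VP p P.K (T.toPT.hs P B (fun _ => true))
        (T.toPT.hs P B (fun _ => true)) L (fun ω _ => F ω) ω ω) ω =
        T.toPT.EE (fun _ => ε * (1 - p)) B ∅ F ω)
    (ε : ℕ → ℝ) (hε0 : ε 0 = 1) (hε : ∀ k, ε (k + 1) = ε k * (1 - p k)) (k : ℕ)
    {F : Cfg V d → ℝ} (hF : T.toPT.DepOn B F) (ω : Cfg V d) :
    ∫ η, F (T.cfg P B η k) ∂(nzP V d p P) = T.toPT.EE (fun _ => ε k) B ∅ F ω := by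
  induction k generalizing F with
  | zero => rw [hε0]; exact law_zero hF ω
  | succ k ih =>
    obtain ⟨M, hM⟩ := hF.bdd
    have hRl : ∀ e ∈ T.lst B, ∀ ξ ω ω', T.toPT.Eqv B ω ω' →
        T.toPT.Eqv B (T.toPT.hs (P k) B (fun _ => true) e ξ ω)
          (T.toPT.hs (P k) B (fun _ => true) e ξ ω') :=
      fun e he ξ ω ω' h => PT.hs_local (P k) _ (mem_lst_EB he) ξ h
    have hb := bridge_cfg (T := T) (B := B) (B' := B) hp hK k (Finset.Subset.refl B)
      (R := T.toPT.hs (P k) B (fun _ => true)) (R' := T.toPT.hs (P k) B (fun _ => true))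
      (fun ω _ => F ω) (M := M) (fun ω _ => hM ω) (fun ω₁ _ ω₂ _ h _ => hF.eq h) hRl hRl
    have h1 : ∫ η, F (T.cfg P B η (k + 1)) ∂(nzP V d p P) =
        ∫ η, VP (p k) (P k).K (T.toPT.hs (P k) B (fun _ => true))
          (T.toPT.hs (P k) B (fun _ => true)) (T.lst B) (fun ω _ => F ω) (T.cfg P B η k)
          (T.cfg P B η k) ∂(nzP V d p P) := hb
    rw [h1, hε, ← hlaw (P k) (hK k) (p k) (ε k) (T.lst B) (T.lst_nodup B) (T.lst_mem B) F ω]
    apply ih (F := fun ω => VP (p k) (P k).K (T.toPT.hs (P k) B (fun _ => true))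
      (T.toPT.hs (P k) B (fun _ => true)) (T.lst B) (fun ω _ => F ω) ω ω)
    intro ω ω' h1 h2
    have hE : T.toPT.Eqv B ω ω' := ⟨h1, h2⟩
    exact VP_local _ _ hRl hRl (fun ω₁ _ ω₂ _ h _ => hF.eq h) hE hE

end law

end FI
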