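import Pool.Agent.H99.FI.Windows

/-!
# FI, job M1: resampling one coordinate of the noise is measure preserving
-/

set_option autoImplicit false

namespace FI

open Finset Function MeasureTheory MeasureTheory.Measure
open scoped Classical

/-- resampling one coordinate of an infinite product -/
theorem mp_resample {ι : Type*} [DecidableEq ι] {X : ι → Type*} [∀ i, MeasurableSpace (X i)]
    (μ : ∀ i, Measure (X i)) [∀ i, IsProbabilityMeasure (μ i)] (i : ι) :
    MeasurePreserving (fun q : X i × (∀ j, X j) => update q.2 i q.1)
      ((μ i).prod (infinitePi μ)) (infinitePi μ) := by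
  have hm : Measurable (fun q : X i × (∀ j, X j) => update q.2 i q.1) := by
    rw [measurable_pi_iff]
    intro j
    by_cases h : j = i
    · subst h
      simpa using measurable_fst
    · simp only [update_of_ne h]
      exact (measurable_pi_apply j).comp measurable_snd
  refine ⟨hm, ?_⟩
  apply eq_infinitePi
  intro s t ht
  rw [map_apply hm (MeasurableSet.pi s.countable_toSet (fun i _ => ht i))]
  by_cases hi : i ∈ s
  · have h1 : (fun q : X i × (∀ j, X j) => update q.2 i q.1) ⁻¹' (Set.pi (s : Set ι) t)
        = t i ×ˢ (Set.pi ((s.erase i : Finset ι) : Set ι) t) := by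
      ext q
      simp only [Set.mem_preimage, Set.mem_pi, Finset.mem_coe, Set.mem_prod, Finset.mem_erase]
      constructor
      · intro h
        refine ⟨by simpa using h i hi, fun j hj => ?_⟩
        simpa [update_of_ne hj.1] using h j hj.2
      · rintro ⟨h1, h2⟩ j hj
        by_cases hji : j = i
        · subst hji; simpa using h1
        · rw [update_of_ne hji]; exact h2 j ⟨hji, hj⟩
    rw [h1, prod_prod, infinitePi_pi _ (fun j _ => ht j),
      Finset.mul_prod_erase s (fun j => (μ j) (t j)) hi]
  · have h1 : (fun q : X i × (∀ j, X j) => update q.2 i q.1) ⁻¹' (Set.pi (s : Set ι) t)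
        = Set.univ ×ˢ (Set.pi (s : Set ι) t) := by
      ext q
      simp only [Set.mem_preimage, Set.mem_pi, Finset.mem_coe, Set.mem_prod, Set.mem_univ,
        true_and]
      constructor
      · intro h j hj
        have hji : j ≠ i := fun h' => hi (h' ▸ hj)
        simpa [update_of_ne hji] using h j hj
      · intro h j hj
        have hji : j ≠ i := fun h' => hi (h' ▸ hj)
        rw [update_of_ne hji]; exact h j hj
    rw [h1, prod_prod, infinitePi_pi _ (fun j _ => ht j), measure_univ, one_mul]

/-- lifting a measure preserving resampling of the coordinate `i` to the product -/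
theorem mp_lift {ι Z : Type*} [DecidableEq ι] [MeasurableSpace Z] {X : ι → Type*} [∀ i, MeasurableSpace (X i)]
    (μ : ∀ i, Measure (X i)) [∀ i, IsProbabilityMeasure (μ i)] (κ : Measure Z)
    [IsProbabilityMeasure κ] (i : ι) (u : Z × X i → X i)
    (hu : MeasurePreserving u (κ.prod (μ i)) (μ i)) :
    MeasurePreserving (fun q : Z × (∀ j, X j) => update q.2 i (u (q.1, q.2 i)))
      (κ.prod (infinitePi μ)) (infinitePi μ) := by
  have hmΨ : Measurable (fun q : Z × (∀ j, X j) => update q.2 i (u (q.1, q.2 i))) := by
    rw [measurable_pi_iff]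
    intro j
    by_cases h : j = i
    · subst h
      simp only [update_self]
      exact hu.measurable.comp (measurable_fst.prodMk ((measurable_pi_apply j).comp measurable_snd))
    · simp only [update_of_ne h]
      exact (measurable_pi_apply j).comp measurable_snd
  have h1 := mp_resample μ i
  -- `(z, (x, η)) ↦ (z, update η i x)`
  have h2 : MeasurePreserving
      (Prod.map id (fun q : X i × (∀ j, X j) => update q.2 i q.1) :
        Z × (X i × (∀ j, X j)) → Z × (∀ j, X j))
      (κ.prod ((μ i).prod (infinitePi μ))) (κ.prod (infinitePi μ)) :=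
    (MeasurePreserving.id κ).prod h1
  -- `(z, (x, η)) ↦ update η i (u (z, x))`
  have h3 : MeasurePreserving
      (fun q : Z × (X i × (∀ j, X j)) => update q.2.2 i (u (q.1, q.2.1)))
      (κ.prod ((μ i).prod (infinitePi μ))) (infinitePi μ) := by
    have e1 := (MeasureTheory.measurePreserving_prodAssoc κ (μ i) (infinitePi μ)).symm
    have e2 := hu.prod (MeasurePreserving.id (infinitePi μ))
    exact h1.comp (e2.comp e1)
  refine ⟨hmΨ, ?_⟩
  have h4 : (fun q : Z × (∀ j, X j) => update q.2 i (u (q.1, q.2 i))) ∘
      (Prod.map id (fun q : X i × (∀ j, X j) => update q.2 i q.1)) =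
      fun q : Z × (X i × (∀ j, X j)) => update q.2.2 i (u (q.1, q.2.1)) := by
    funext q
    simp
  calc Measure.map (fun q : Z × (∀ j, X j) => update q.2 i (u (q.1, q.2 i)))
        (κ.prod (infinitePi μ))
      = Measure.map (fun q : Z × (∀ j, X j) => update q.2 i (u (q.1, q.2 i)))
        (Measure.map (Prod.map id (fun q : X i × (∀ j, X j) => update q.2 i q.1))
          (κ.prod ((μ i).prod (infinitePi μ)))) := by rw [h2.map_eq]
    _ = Measure.map (fun q : Z × (X i × (∀ j, X j)) => update q.2.2 i (u (q.1, q.2.1)))
          (κ.prod ((μ i).prod (infinitePi μ))) := by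
        rw [Measure.map_map hmΨ h2.measurable, h4]
    _ = infinitePi μ := h3.map_eq

/-- lifting through a product with another factor -/
theorem mp_lift_prod {Z A B : Type*} [MeasurableSpace Z] [MeasurableSpace A] [MeasurableSpace B]
    (κ : Measure Z) (α : Measure A) (β : Measure B) [IsProbabilityMeasure κ]
    [IsProbabilityMeasure α] [IsProbabilityMeasure β] (u : Z × B → B)
    (hu : MeasurePreserving u (κ.prod β) β) :
    MeasurePreserving (fun q : Z × (A × B) => (q.2.1, u (q.1, q.2.2)))
      (κ.prod (α.prod β)) (α.prod β) := by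
  have e1 := (MeasureTheory.measurePreserving_prodAssoc κ α β).symm
  have e2 := (Measure.measurePreserving_swap (μ := κ) (ν := α)).prod (MeasurePreserving.id β)
  have e3 := (MeasureTheory.measurePreserving_prodAssoc α κ β)
  have e4 := (MeasurePreserving.id α).prod hu
  exact e4.comp (e3.comp (e2.comp e1))

/-- replacing the first factor -/
theorem mp_fst_prod {A B : Type*} [MeasurableSpace A] [MeasurableSpace B]
    (α : Measure A) (β : Measure B) [IsProbabilityMeasure α] [IsProbabilityMeasure β] :
    MeasurePreserving (fun q : A × (A × B) => (q.1, q.2.2))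
      (α.prod (α.prod β)) (α.prod β) := by
  exact (MeasurePreserving.id α).prod (measurePreserving_snd (μ := α) (ν := β))

section noise

variable {V : Type*} {d : ℕ} {p : ℕ → ℝ} {P : ℕ → Par}

/-- uniform law on permutations -/
noncomputable def pLaw (d : ℕ) : Measure (Equiv.Perm (Fin d)) :=
  ∑ σ : Equiv.Perm (Fin d), (1 / (d.factorial : ENNReal)) • Measure.dirac σ

instance : IsProbabilityMeasure (pLaw d) := by
  constructor
  unfold pLaw
  rw [Measure.finsetSum_apply]
  simp only [Measure.smul_apply, measure_univ, smul_eq_mul, mul_one, Finset.sum_const,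
    Finset.card_univ, Fintype.card_perm, Fintype.card_fin, nsmul_eq_mul]
  rw [one_div]
  exact ENNReal.mul_inv_cancel (by exact_mod_cast d.factorial_pos.ne') (ENNReal.natCast_ne_top _)

theorem winLaw_prob {q : ℝ} {K : ℕ} (h0 : 0 ≤ q) (h1 : q ≤ 1) (hK : 0 < K) :
    IsProbabilityMeasure (winLaw q K) := by
  unfold winLaw
  have i1 : IsProbabilityMeasure (((ENNReal.ofReal q) • Measure.dirac true +
      (ENNReal.ofReal (1 - q)) • Measure.dirac false : Measure Bool)) := by
    constructor
    rw [Measure.add_apply, Measure.smul_apply, Measure.smul_apply, measure_univ, measure_univ,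
      smul_eq_mul, smul_eq_mul, mul_one, mul_one, ← ENNReal.ofReal_add h0 (by linarith)]
    simp
  have i2 : IsProbabilityMeasure (∑ ξ ∈ range K, (1 / (K : ENNReal)) • Measure.dirac ξ :
      Measure ℕ) := by
    constructor
    rw [Measure.finsetSum_apply]
    simp only [Measure.smul_apply, measure_univ, smul_eq_mul, mul_one, Finset.sum_const,
      Finset.card_range, nsmul_eq_mul]
    rw [one_div]
    exact ENNReal.mul_inv_cancel (by exact_mod_cast hK.ne') (ENNReal.natCast_ne_top _)
  infer_instance

/-- replace the noise of the dart `a` in window `k` -/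
noncomputable def upW (k : ℕ) (a : Dart V d) (z : Bool × ℕ) (η : V → Nz d) : V → Nz d :=
  update η a.1 ((η a.1).1, update (η a.1).2 k (update ((η a.1).2 k) a.2 z))

/-- replace the initial permutation at `v` -/
noncomputable def upS (v : V) (σ : Equiv.Perm (Fin d)) (η : V → Nz d) : V → Nz d :=
  update η v (σ, (η v).2)

variable [hw : ∀ k, IsProbabilityMeasure (winLaw (p k) (P k).K)]

instance nzLaw_prob : IsProbabilityMeasure (nzLaw d p P) := by
  unfold nzLaw
  have : IsProbabilityMeasure (∑ σ : Equiv.Perm (Fin d), (1 / (d.factorial : ENNReal)) •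
      Measure.dirac σ : Measure (Equiv.Perm (Fin d))) :=
    inferInstanceAs (IsProbabilityMeasure (pLaw d))
  infer_instance

instance nzP_prob : IsProbabilityMeasure (nzP V d p P) := by
  unfold nzP
  infer_instance

theorem mp_upW (k : ℕ) (a : Dart V d) :
    MeasurePreserving (fun q : (Bool × ℕ) × (V → Nz d) => upW k a q.1 q.2)
      ((winLaw (p k) (P k).K).prod (nzP V d p P)) (nzP V d p P) := by
  set κ := winLaw (p k) (P k).K with hκ
  -- ports
  have h1 : MeasurePreserving (fun q : (Bool × ℕ) × (Fin d → Bool × ℕ) => update q.2 a.2 q.1)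
      (κ.prod (Measure.pi fun _ : Fin d => κ)) (Measure.pi fun _ : Fin d => κ) := by
    have := mp_resample (fun _ : Fin d => κ) a.2
    rwa [infinitePi_eq_pi] at this
  -- windows
  have h2 := mp_lift (fun k : ℕ => Measure.pi fun _ : Fin d => winLaw (p k) (P k).K) κ k _ h1
  -- vertex
  have h3 := mp_lift_prod κ (pLaw d)
    (infinitePi (fun k : ℕ => Measure.pi fun _ : Fin d => winLaw (p k) (P k).K)) _ h2
  exact mp_lift (fun _ : V => nzLaw d p P) κ a.1 _ h3

theorem mp_upS (v : V) :
    MeasurePreserving (fun q : Equiv.Perm (Fin d) × (V → Nz d) => upS v q.1 q.2)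
      ((pLaw d).prod (nzP V d p P)) (nzP V d p P) := by
  have h3 := mp_fst_prod (pLaw d)
    (infinitePi (fun k : ℕ => Measure.pi fun _ : Fin d => winLaw (p k) (P k).K))
  exact mp_lift (fun _ : V => nzLaw d p P) (pLaw d) v _ h3

end noise

end FI
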